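import Mathlib

set_option autoImplicit false

namespace Pool.Agent.Results.MP_89fae5_co.AutIsSn

open Finset

/-! ### Cyclic sequences -/

section Seq

variable {n : ℕ} [NeZero n] {V : Type} [DecidableEq V]

/-- The cyclic edge number `k` of a cyclic sequence. -/
def E (w : ZMod n ≃ V) (k : ZMod n) : Sym2 V := s(w k, w (k + 1))

/-- The path obtained from the cycle of `w` by deleting its edge number `k`. -/
def P (w : ZMod n ≃ V) (k : ZMod n) : Finset (Sym2 V) := (univ.erase k).image (E w)

/-- The cycle of `w` without two edges. -/
def F (w : ZMod n ≃ V) (k t : ZMod n) : Finset (Sym2 V) := ((univ.erase k).erase t).image (E w)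

/-- Spanning paths. -/
def Ham (n : ℕ) [NeZero n] {V : Type} [DecidableEq V] (Q : Finset (Sym2 V)) : Prop :=
  ∃ (w : ZMod n ≃ V) (k : ZMod n), Q = P w k

/-- Adjacency. -/
def Adj (n : ℕ) {V : Type} [DecidableEq V] (Q R : Finset (Sym2 V)) : Prop :=
  Q ≠ R ∧ (Q ∩ R).card = n - 2

omit [NeZero n] [DecidableEq V] in
theorem natCast_ne (m : ℕ) (h0 : 0 < m) (h : m < n) : (m : ZMod n) ≠ 0 := by
  intro h1
  rw [ZMod.natCast_eq_zero_iff] at h1
  exact absurd (Nat.le_of_dvd h0 h1) (not_le.2 h)

theorem one_ne (hn : 5 ≤ n) : (1 : ZMod n) ≠ 0 := by
  have := natCast_ne (n := n) 1 (by omega) (by omega)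
  exact_mod_cast this

theorem two_ne (hn : 5 ≤ n) : (2 : ZMod n) ≠ 0 := by
  have := natCast_ne (n := n) 2 (by omega) (by omega)
  exact_mod_cast this

theorem three_ne (hn : 5 ≤ n) : (3 : ZMod n) ≠ 0 := by
  have := natCast_ne (n := n) 3 (by omega) (by omega)
  exact_mod_cast this

theorem four_ne (hn : 5 ≤ n) : (4 : ZMod n) ≠ 0 := by
  have := natCast_ne (n := n) 4 (by omega) (by omega)
  exact_mod_cast this

omit [DecidableEq V] [NeZero n] in
theorem E_inj [NeZero n] (hn : 5 ≤ n) (w : ZMod n ≃ V) {k l : ZMod n} (h : E w k = E w l) :
    k = l := by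
  unfold E at h
  rw [Sym2.eq_iff] at h
  rcases h with ⟨h1, _⟩ | ⟨h1, h2⟩
  · exact w.injective h1
  · have h1' := w.injective h1
    have h2' := w.injective h2
    exfalso
    apply two_ne hn
    rw [h1'] at h2'
    linear_combination h2'

theorem mem_P (w : ZMod n ≃ V) (k : ZMod n) (e : Sym2 V) :
    e ∈ P w k ↔ ∃ l, l ≠ k ∧ E w l = e := by
  simp [P]

theorem mem_F (w : ZMod n ≃ V) (k t : ZMod n) (e : Sym2 V) :
    e ∈ F w k t ↔ ∃ l, l ≠ t ∧ l ≠ k ∧ E w l = e := by
  simp [F, and_assoc]

theorem E_mem_P (hn : 5 ≤ n) (w : ZMod n ≃ V) (k l : ZMod n) : E w l ∈ P w k ↔ l ≠ k := by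
  rw [mem_P]
  constructor
  · rintro ⟨m, hm, he⟩
    rw [E_inj hn w he] at hm
    exact hm
  · intro h
    exact ⟨l, h, rfl⟩

theorem E_mem_F (hn : 5 ≤ n) (w : ZMod n ≃ V) (k t l : ZMod n) :
    E w l ∈ F w k t ↔ l ≠ t ∧ l ≠ k := by
  rw [mem_F]
  constructor
  · rintro ⟨m, hm, hm2, he⟩
    rw [E_inj hn w he] at hm hm2
    exact ⟨hm, hm2⟩
  · intro h
    exact ⟨l, h.1, h.2, rfl⟩

theorem card_P (hn : 5 ≤ n) (w : ZMod n ≃ V) (k : ZMod n) : (P w k).card = n - 1 := by
  unfold P
  rw [card_image_of_injective _ (fun a b h => E_inj hn w h), card_erase_of_mem (mem_univ k),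
    card_univ, ZMod.card]

theorem card_F (hn : 5 ≤ n) (w : ZMod n ≃ V) {k t : ZMod n} (h : t ≠ k) :
    (F w k t).card = n - 2 := by
  unfold F
  rw [card_image_of_injective _ (fun a b h => E_inj hn w h),
    card_erase_of_mem (by simp [h]), card_erase_of_mem (mem_univ k),
    card_univ, ZMod.card]
  omega

theorem card_three (hn : 5 ≤ n) (w : ZMod n ≃ V) {k t b : ZMod n} (h : t ≠ k) (h1 : b ≠ k)
    (h2 : b ≠ t) : ((((univ.erase k).erase t).erase b).image (E w)).card = n - 3 := by
  rw [card_image_of_injective _ (fun a b h => E_inj hn w h),
    card_erase_of_mem (by simp [h1, h2]), card_erase_of_mem (by simp [h]),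
    card_erase_of_mem (mem_univ k), card_univ, ZMod.card]
  omega

theorem F_comm (w : ZMod n ≃ V) (k t : ZMod n) : F w k t = F w t k := by
  ext e
  rw [mem_F, mem_F]
  constructor
  · rintro ⟨l, h1, h2, h3⟩
    exact ⟨l, h2, h1, h3⟩
  · rintro ⟨l, h1, h2, h3⟩
    exact ⟨l, h2, h1, h3⟩

theorem P_eq_insert (w : ZMod n ≃ V) {k t : ZMod n} (h : t ≠ k) :
    P w k = insert (E w t) (F w k t) := by
  ext e
  rw [mem_insert, mem_P, mem_F]
  constructor
  · rintro ⟨l, hl, rfl⟩
    by_cases hlt : l = t
    · left; rw [hlt]
    · right; exact ⟨l, hlt, hl, rfl⟩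
  · rintro (rfl | ⟨l, _, hl, rfl⟩)
    · exact ⟨t, h, rfl⟩
    · exact ⟨l, hl, rfl⟩

omit [NeZero n] in
theorem adj_insert {G : Finset (Sym2 V)} (hG : G.card = n - 2) {x y : Sym2 V}
    (hx : x ∉ G) (hxy : x ≠ y) : Adj n (insert x G) (insert y G) := by
  constructor
  · intro h
    have : x ∈ insert y G := by rw [← h]; exact mem_insert_self _ _
    rw [mem_insert] at this
    rcases this with h1 | h1
    · exact hxy h1
    · exact hx h1
  · have : insert x G ∩ insert y G = G := by
      ext e
      simp only [mem_inter, mem_insert]
      constructor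
      · rintro ⟨h1 | h1, h2 | h2⟩
        · exact absurd (h1.symm.trans h2) hxy
        · exact h2
        · exact h1
        · exact h1
      · intro h
        exact ⟨Or.inr h, Or.inr h⟩
    rw [this, hG]

omit [NeZero n] in
theorem Adj.symm {Q R : Finset (Sym2 V)} (h : Adj n Q R) : Adj n R Q :=
  ⟨h.1.symm, by rw [inter_comm]; exact h.2⟩

theorem card_Ham (hn : 5 ≤ n) {Q : Finset (Sym2 V)} (h : Ham n Q) : Q.card = n - 1 := by
  obtain ⟨w, k, rfl⟩ := h
  exact card_P hn w k

/-- No vertex has degree three in a spanning path. -/
theorem degree {Q : Finset (Sym2 V)} (h : Ham n Q) (v : V) {e₁ e₂ e₃ : Sym2 V} (h1 : e₁ ∈ Q)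
    (h2 : e₂ ∈ Q) (h3 : e₃ ∈ Q) (v1 : v ∈ e₁) (v2 : v ∈ e₂) (v3 : v ∈ e₃) :
    e₁ = e₂ ∨ e₁ = e₃ ∨ e₂ = e₃ := by
  obtain ⟨w, k, rfl⟩ := h
  rw [mem_P] at h1 h2 h3
  obtain ⟨l₁, _, rfl⟩ := h1
  obtain ⟨l₂, _, rfl⟩ := h2
  obtain ⟨l₃, _, rfl⟩ := h3
  have key : ∀ l : ZMod n, v ∈ E w l → l = w.symm v ∨ l = w.symm v - 1 := by
    intro l hl
    unfold E at hl
    rw [Sym2.mem_iff] at hl
    rcases hl with hl | hl
    · left; rw [hl, Equiv.symm_apply_apply]
    · right; rw [hl, Equiv.symm_apply_apply]; ring
  rcases key l₁ v1 with a | a <;> rcases key l₂ v2 with b | b <;>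
    rcases key l₃ v3 with c | c <;> rw [a, b, c] <;> simp

/-- A spanning path crosses every cut. -/
theorem cross {Q : Finset (Sym2 V)} (h : Ham n Q) (S : V → Prop) (a b : V) (ha : S a)
    (hb : ¬ S b) : ∃ x y, s(x, y) ∈ Q ∧ S x ∧ ¬ S y := by
  by_contra hcon
  push Not at hcon
  obtain ⟨w, k, rfl⟩ := h
  have h1 : ∀ l, l ≠ k → (S (w l) ↔ S (w (l + 1))) := by
    intro l hl
    constructor
    · exact hcon _ _ (by rw [mem_P]; exact ⟨l, hl, rfl⟩)
    · exact hcon _ _ (by rw [mem_P]; exact ⟨l, hl, Sym2.eq_swap⟩)
  have h2 : ∀ m : ℕ, m < n → (S (w (k + 1 + (m : ZMod n))) ↔ S (w (k + 1))) := by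
    intro m
    induction m with
    | zero => intro _; simp
    | succ m ih =>
      intro hm
      rw [← ih (by omega)]
      have hne : k + 1 + (m : ZMod n) ≠ k := by
        intro hh
        have : ((m + 1 : ℕ) : ZMod n) = 0 := by
          push_cast
          linear_combination hh
        exact natCast_ne (m + 1) (by omega) hm this
      have := h1 _ hne
      rw [this]
      push_cast
      rw [show k + 1 + ((m : ZMod n) + 1) = k + 1 + (m : ZMod n) + 1 by ring]
  have h3 : ∀ v, S v ↔ S (w (k + 1)) := by
    intro v
    have := h2 (w.symm v - (k + 1)).val (ZMod.val_lt _)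
    rw [ZMod.natCast_zmod_val] at this
    rw [← this, show k + 1 + (w.symm v - (k + 1)) = w.symm v by ring, Equiv.apply_symm_apply]
  exact hb ((h3 b).2 ((h3 a).1 ha))

omit [DecidableEq V] in
/-- The segment from `k + 1` to `t`. -/
theorem segment (k t : ZMod n) (h : t ≠ k) : ∃ S : ZMod n → Prop, ¬ S k ∧ S (k + 1) ∧ S t ∧
    ¬ S (t + 1) ∧ (∀ l, l ≠ k → l ≠ t → (S l ↔ S (l + 1))) ∧
    (∀ j, S j → S (k + 1 + t - j)) := by
  have hn0 : 0 < n := Nat.pos_of_ne_zero (NeZero.ne n)
  have hval : ∀ l : ZMod n, l ≠ k → (l + 1 - k - 1).val = (l - k - 1).val + 1 := by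
    intro l hl
    have hlt : (l - k - 1).val + 1 < n := by
      have h1 := ZMod.val_lt (l - k - 1)
      rcases Nat.lt_or_ge ((l - k - 1).val + 1) n with h2 | h2
      · exact h2
      · exfalso
        apply hl
        have h3 : (l - k - 1).val + 1 = n := by omega
        have h4 : (((l - k - 1).val + 1 : ℕ) : ZMod n) = 0 := by rw [h3]; simp
        push_cast at h4
        rw [ZMod.natCast_zmod_val] at h4
        linear_combination h4
    have : l + 1 - k - 1 = (((l - k - 1).val + 1 : ℕ) : ZMod n) := by
      push_cast
      rw [ZMod.natCast_zmod_val]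
      ring
    rw [this, ZMod.val_natCast, Nat.mod_eq_of_lt hlt]
  have hinj : ∀ l m : ZMod n, (l - k - 1).val = (m - k - 1).val → l = m := by
    intro l m hlm
    have := ZMod.val_injective n hlm
    linear_combination this
  refine ⟨fun j => (j - k - 1).val ≤ (t - k - 1).val, ?_, ?_, le_rfl, ?_, ?_, ?_⟩
  · intro hk
    have h1 : (t - k - 1).val + 1 < n := by
      rw [← hval t h]
      exact ZMod.val_lt _
    have h2 : (k - k - 1 : ZMod n) = ((n - 1 : ℕ) : ZMod n) := by
      rw [Nat.cast_sub (by omega)]
      simp
    rw [h2, ZMod.val_natCast, Nat.mod_eq_of_lt (by omega)] at hk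
    omega
  · change (k + 1 - k - 1).val ≤ _
    rw [show k + 1 - k - 1 = (0 : ZMod n) by ring, ZMod.val_zero]
    omega
  · change ¬ (t + 1 - k - 1).val ≤ _
    rw [hval t h]
    omega
  · intro l hlk hlt
    change (l - k - 1).val ≤ _ ↔ (l + 1 - k - 1).val ≤ _
    rw [hval l hlk]
    have : (l - k - 1).val ≠ (t - k - 1).val := fun hh => hlt (hinj _ _ hh)
    omega
  · intro j hj
    have hj' : (j - k - 1).val ≤ (t - k - 1).val := hj
    rw [show k + 1 + t - j - k - 1 = (t - k - 1) - (j - k - 1) by ring, ZMod.val_sub hj']
    omega

/-- The first new edge. -/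
def A (w : ZMod n ≃ V) (k t : ZMod n) : Sym2 V := s(w (k + 1), w (t + 1))

/-- The second new edge. -/
def B (w : ZMod n ≃ V) (k t : ZMod n) : Sym2 V := s(w t, w k)

theorem ham_insert (hn : 5 ≤ n) (w : ZMod n ≃ V) {k t : ZMod n} (h : t ≠ k) (x : Sym2 V)
    (hQ : Ham n (insert x (F w k t))) : x = A w k t ∨ x = E w k ∨ x = E w t ∨ x = B w k t := by
  obtain ⟨S, s1, s2, s3, s4, s5, _⟩ := segment k t h
  obtain ⟨y, z, hyz, hy, hz⟩ := cross hQ (fun v => S (w.symm v)) (w (k + 1)) (w k)
    (by simpa using s2) (by simpa using s1)
  have hx : x = s(y, z) := by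
    rw [mem_insert] at hyz
    rcases hyz with h1 | h1
    · exact h1.symm
    · exfalso
      rw [mem_F] at h1
      obtain ⟨l, h2, h3, h4⟩ := h1
      unfold E at h4
      rw [Sym2.eq_iff] at h4
      have h5 := s5 l h3 h2
      rcases h4 with ⟨h6, h7⟩ | ⟨h6, h7⟩
      · rw [← h6, Equiv.symm_apply_apply] at hy
        rw [← h7, Equiv.symm_apply_apply] at hz
        exact hz (h5.1 hy)
      · rw [← h7, Equiv.symm_apply_apply] at hy
        rw [← h6, Equiv.symm_apply_apply] at hz
        exact hz (h5.2 hy)
  obtain ⟨a, rfl⟩ := w.surjective y
  obtain ⟨b, rfl⟩ := w.surjective z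
  simp only [Equiv.symm_apply_apply] at hy hz
  have hax : w a ∈ x := by rw [hx]; exact Sym2.mem_mk_left _ _
  have hbx : w b ∈ x := by rw [hx]; exact Sym2.mem_mk_right _ _
  have ha : a = k + 1 ∨ a = t := by
    by_contra hcon
    push Not at hcon
    have n1 : a ≠ k := fun hh => s1 (hh ▸ hy)
    have n2 : a - 1 ≠ k := fun hh => hcon.1 (by rw [← hh]; ring)
    have n3 : a - 1 ≠ t := fun hh => s4 (by rw [← hh, sub_add_cancel]; exact hy)
    have m1 : E w a ∈ insert x (F w k t) := mem_insert_of_mem (by
      rw [mem_F]; exact ⟨a, hcon.2, n1, rfl⟩)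
    have m2 : E w (a - 1) ∈ insert x (F w k t) := mem_insert_of_mem (by
      rw [mem_F]; exact ⟨a - 1, n3, n2, rfl⟩)
    rcases degree hQ (w a) m1 m2 (mem_insert_self _ _) (Sym2.mem_mk_left _ _)
      (by unfold E; rw [sub_add_cancel]; exact Sym2.mem_mk_right _ _) hax with h1 | h1 | h1
    · have := E_inj hn w h1
      apply one_ne hn
      linear_combination this
    · rw [hx] at h1
      unfold E at h1
      rw [Sym2.eq_iff] at h1
      rcases h1 with ⟨_, h1⟩ | ⟨h1, _⟩
      · have := w.injective h1
        rw [← this] at hz
        exact hz ((s5 a n1 hcon.2).1 hy)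
      · have := w.injective h1
        rw [← this] at hz
        exact hz hy
    · rw [hx] at h1
      unfold E at h1
      rw [Sym2.eq_iff] at h1
      rcases h1 with ⟨h1, _⟩ | ⟨h1, _⟩
      · have := w.injective h1
        apply one_ne hn
        linear_combination -this
      · have := w.injective h1
        rw [← this] at hz
        apply hz
        rw [s5 (a - 1) n2 n3, sub_add_cancel]
        exact hy
  have hb : b = t + 1 ∨ b = k := by
    by_contra hcon
    push Not at hcon
    have n1 : b ≠ t := fun hh => hz (hh ▸ s3)
    have n2 : b - 1 ≠ t := fun hh => hcon.1 (by rw [← hh]; ring)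
    have n3 : b - 1 ≠ k := fun hh => hz (by rw [← hh, sub_add_cancel] at s2; exact s2)
    have m1 : E w b ∈ insert x (F w k t) := mem_insert_of_mem (by
      rw [mem_F]; exact ⟨b, n1, hcon.2, rfl⟩)
    have m2 : E w (b - 1) ∈ insert x (F w k t) := mem_insert_of_mem (by
      rw [mem_F]; exact ⟨b - 1, n2, n3, rfl⟩)
    rcases degree hQ (w b) m1 m2 (mem_insert_self _ _) (Sym2.mem_mk_left _ _)
      (by unfold E; rw [sub_add_cancel]; exact Sym2.mem_mk_right _ _) hbx with h1 | h1 | h1
    · have := E_inj hn w h1
      apply one_ne hn
      linear_combination this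
    · rw [hx] at h1
      unfold E at h1
      rw [Sym2.eq_iff] at h1
      rcases h1 with ⟨h1, _⟩ | ⟨_, h1⟩
      · have := w.injective h1
        rw [← this] at hy
        exact hz hy
      · have := w.injective h1
        rw [← this] at hy
        exact hz ((s5 b hcon.2 n1).2 hy)
    · rw [hx] at h1
      unfold E at h1
      rw [Sym2.eq_iff] at h1
      rcases h1 with ⟨h1, _⟩ | ⟨h1, _⟩
      · have := w.injective h1
        rw [← this] at hy
        apply hz
        have := (s5 (b - 1) n3 n2).1 hy
        rw [sub_add_cancel] at this
        exact this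
      · have := w.injective h1
        apply one_ne hn
        linear_combination -this
  rw [hx]
  rcases ha with rfl | rfl <;> rcases hb with rfl | rfl
  · left; rfl
  · right; left; unfold E; exact Sym2.eq_swap
  · right; right; left; rfl
  · right; right; right; rfl

/-- The shape of a neighbour of a path. -/
theorem nbr (hn : 5 ≤ n) (w : ZMod n ≃ V) (k : ZMod n) {Q : Finset (Sym2 V)} (hQ : Ham n Q)
    (h : Adj n (P w k) Q) : ∃ t x, t ≠ k ∧ x ∉ P w k ∧ Q = insert x (F w k t) ∧
      (x = A w k t ∨ x = E w k ∨ x = B w k t) := by
  have c1 := card_P hn w k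
  have c2 := card_Ham hn hQ
  have c3 := h.2
  have d1 : (P w k \ Q).card = 1 := by
    have := card_sdiff_add_card_inter (P w k) Q
    omega
  have d2 : (Q \ P w k).card = 1 := by
    have := card_sdiff_add_card_inter Q (P w k)
    rw [inter_comm] at this
    omega
  obtain ⟨a, ha⟩ := card_eq_one.1 d1
  obtain ⟨x, hx⟩ := card_eq_one.1 d2
  have ha1 : a ∈ P w k ∧ a ∉ Q := by
    rw [← mem_sdiff, ha]; exact mem_singleton_self a
  have hx1 : x ∈ Q ∧ x ∉ P w k := by
    rw [← mem_sdiff, hx]; exact mem_singleton_self x
  obtain ⟨t, htk, rfl⟩ := (mem_P w k a).1 ha1.1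
  have hQe : Q = insert x (F w k t) := by
    ext e
    rw [mem_insert]
    constructor
    · intro he
      by_cases hp : e ∈ P w k
      · right
        obtain ⟨l, hl, rfl⟩ := (mem_P w k e).1 hp
        rw [E_mem_F hn]
        refine ⟨?_, hl⟩
        rintro rfl
        exact ha1.2 he
      · left
        have : e ∈ Q \ P w k := mem_sdiff.2 ⟨he, hp⟩
        rw [hx] at this
        exact mem_singleton.1 this
    · rintro (rfl | he)
      · exact hx1.1
      · obtain ⟨l, hlt, hlk, rfl⟩ := (mem_F w k t e).1 he
        by_contra hcon
        have : E w l ∈ P w k \ Q := mem_sdiff.2 ⟨(E_mem_P hn w k l).2 hlk, hcon⟩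
        rw [ha] at this
        exact hlt (E_inj hn w (mem_singleton.1 this))
  refine ⟨t, x, htk, hx1.2, hQe, ?_⟩
  rw [hQe] at hQ
  rcases ham_insert hn w htk x hQ with h1 | h1 | h1 | h1
  · exact Or.inl h1
  · exact Or.inr (Or.inl h1)
  · exfalso
    apply hx1.2
    rw [h1]
    exact ha1.1
  · exact Or.inr (Or.inr h1)

/-- Common neighbours outside the cycle clique. -/
theorem nbr_two (hn : 5 ≤ n) (w : ZMod n ≃ V) {k b : ZMod n} (hb : b ≠ k)
    {Q : Finset (Sym2 V)} (hQ : Ham n Q)
    (h : Adj n (P w k) Q) (h' : Adj n (P w b) Q) (hout : ∀ m, Q ≠ P w m) :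
    ∃ x, x ∉ P w k ∧ x ≠ E w k ∧ Q = insert x (F w k b) ∧ (x = A w k b ∨ x = B w k b) := by
  obtain ⟨t, x, htk, hx, hQe, hxx⟩ := nbr hn w k hQ h
  have hxk : x ≠ E w k := by
    rintro rfl
    apply hout t
    rw [hQe, P_eq_insert w (Ne.symm htk), F_comm]
  have htb : t = b := by
    by_contra hne
    have hsub : P w b ∩ Q ⊆ (((univ.erase k).erase t).erase b).image (E w) := by
      intro e he
      rw [mem_inter, hQe, mem_insert] at he
      obtain ⟨h1, h2⟩ := he
      obtain ⟨l, hl, rfl⟩ := (mem_P w b e).1 h1
      rcases h2 with h2 | h2
      · exfalso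
        by_cases hlk : l = k
        · subst hlk; exact hxk h2.symm
        · exact hx (h2 ▸ (E_mem_P hn w k l).2 hlk)
      · obtain ⟨h3, h4⟩ := (E_mem_F hn w k t l).1 h2
        rw [mem_image]
        exact ⟨l, by simp [hl, h3, h4], rfl⟩
    have h1 := card_le_card hsub
    rw [card_three hn w htk hb (Ne.symm hne), h'.2] at h1
    omega
  subst htb
  refine ⟨x, hx, hxk, hQe, ?_⟩
  rcases hxx with h1 | h1 | h1
  · exact Or.inl h1
  · exact absurd h1 hxk
  · exact Or.inr h1

/-- Consecutive paths of a cycle have no common neighbour outside the cycle clique. -/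
theorem no_outside (hn : 5 ≤ n) (w : ZMod n ≃ V) (k : ZMod n)
    {Q : Finset (Sym2 V)} (hQ : Ham n Q)
    (h : Adj n (P w k) Q) (h' : Adj n (P w (k + 1)) Q) : ∃ m, Q = P w m := by
  by_contra hcon
  push Not at hcon
  have hne : k + 1 ≠ k := by
    intro hh
    apply one_ne hn
    linear_combination hh
  obtain ⟨x, hx, hxk, _, h1 | h1⟩ := nbr_two hn w hne hQ h h' hcon
  · apply hx
    rw [h1]
    exact (E_mem_P hn w k (k + 1)).2 hne
  · apply hxk
    rw [h1]
    exact Sym2.eq_swap

/-- Comparison of two cycles sharing all but two edges. -/
theorem P_eq_of (w v : ZMod n ≃ V) {k t : ZMod n} (h : t ≠ k) (hF : F v k t = F w k t)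
    (hk : E v k = B w k t) (ht : E v t = A w k t) :
    P v k = insert (A w k t) (F w k t) ∧ P v t = insert (B w k t) (F w k t) := by
  constructor
  · rw [P_eq_insert v h, hF, ht]
  · rw [P_eq_insert v (Ne.symm h), F_comm, hF, hk]

/-- Two non-consecutive paths of a cycle have a common neighbour outside the cycle clique. -/
theorem outside (hn : 5 ≤ n) (w : ZMod n ≃ V) (k t : ZMod n) (h : t ≠ k) (h1 : t ≠ k + 1)
    (h2 : k ≠ t + 1) : ∃ Q, Ham n Q ∧ Adj n (P w k) Q ∧ Adj n (P w t) Q ∧ ∀ m, Q ≠ P w m := by
  classical
  obtain ⟨S, s1, s2, s3, s4, s5, s6⟩ := segment k t h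
  let r : ZMod n → ZMod n := fun j => if S j then k + 1 + t - j else j
  have hr : Function.Involutive r := by
    intro j
    by_cases hj : S j
    · have h3 := s6 j hj
      simp only [r, if_pos hj, if_pos h3]
      ring
    · simp only [r, if_neg hj]
  let v : ZMod n ≃ V := (hr.toPerm r).trans w
  have hv : ∀ j, v j = w (r j) := fun j => rfl
  have rS : ∀ j, S j → r j = k + 1 + t - j := fun j hj => if_pos hj
  have rN : ∀ j, ¬ S j → r j = j := fun j hj => if_neg hj
  have ek : E v k = B w k t := by
    unfold E B
    rw [hv, hv, rN k s1, rS _ s2, show k + 1 + t - (k + 1) = t by ring]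
    exact Sym2.eq_swap
  have et : E v t = A w k t := by
    unfold E A
    rw [hv, hv, rS t s3, rN _ s4, show k + 1 + t - t = k + 1 by ring]
  have eS : ∀ l, l ≠ k → l ≠ t → S l → E v l = E w (k + t - l) := by
    intro l hk ht hl
    unfold E
    rw [hv, hv, rS l hl, rS _ ((s5 l hk ht).1 hl),
      show k + 1 + t - (l + 1) = k + t - l by ring, show k + t - l + 1 = k + 1 + t - l by ring]
    exact Sym2.eq_swap
  have eN : ∀ l, l ≠ k → l ≠ t → ¬ S l → E v l = E w l := by
    intro l hk ht hl
    unfold E
    rw [hv, hv, rN l hl, rN _ (fun hh => hl ((s5 l hk ht).2 hh))]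
  have hF1 : F v k t ⊆ F w k t := by
    intro e he
    obtain ⟨l, h3, h4, rfl⟩ := (mem_F v k t e).1 he
    by_cases hl : S l
    · rw [eS l h4 h3 hl, E_mem_F hn]
      constructor
      · intro hh; apply h4; linear_combination -hh
      · intro hh; apply h3; linear_combination -hh
    · rw [eN l h4 h3 hl, E_mem_F hn]
      exact ⟨h3, h4⟩
  have hF : F v k t = F w k t := by
    apply eq_of_subset_of_card_le hF1
    rw [card_F hn w h, card_F hn v h]
  obtain ⟨p1, _⟩ := P_eq_of w v h hF ek et
  have hA : ∀ m, A w k t ≠ E w m := by
    intro m hm
    unfold A E at hm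
    rw [Sym2.eq_iff] at hm
    rcases hm with ⟨a1, a2⟩ | ⟨a1, a2⟩
    · have b1 := w.injective a1
      have b2 := w.injective a2
      apply h1
      linear_combination b2 - b1
    · have b1 := w.injective a1
      have b2 := w.injective a2
      apply h2
      linear_combination b1 - b2
  have hAF : A w k t ∉ F w k t := by
    intro hh
    obtain ⟨l, _, _, h3⟩ := (mem_F w k t _).1 hh
    exact hA l h3.symm
  refine ⟨P v k, ⟨v, k, rfl⟩, ?_, ?_, ?_⟩
  · rw [p1, P_eq_insert w h]
    exact adj_insert (card_F hn w h) (fun hh => ((E_mem_F hn w k t t).1 hh).1 rfl) (hA t).symm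
  · rw [p1, P_eq_insert w (Ne.symm h), F_comm w t k]
    exact adj_insert (card_F hn w h) (fun hh => ((E_mem_F hn w k t k).1 hh).2 rfl) (hA k).symm
  · intro m hm
    have : A w k t ∈ P w m := by
      rw [← hm, p1]
      exact mem_insert_self _ _
    obtain ⟨l, _, h3⟩ := (mem_P w m _).1 this
    exact hA l h3.symm

/-- Five pairwise adjacent paths lie in one cycle. -/
theorem clique_five (hn : 5 ≤ n) (u : ZMod n ≃ V) (k : ZMod n) (Q : Fin 4 → Finset (Sym2 V))
    (hQ : ∀ i, Ham n (Q i)) (h0 : ∀ i, Adj n (P u k) (Q i))
    (hij : ∀ i j, i ≠ j → Adj n (Q i) (Q j)) : ∃ m, Q 0 = P u m := by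
  choose t x ht hx hQe hxx using fun i => nbr hn u k (hQ i) (h0 i)
  have coll : ∀ i j, i ≠ j → t i = t j ∨ x i = x j := by
    intro i j hne
    by_contra hcon
    push Not at hcon
    have hsub : Q i ∩ Q j ⊆ (((univ.erase k).erase (t i)).erase (t j)).image (E u) := by
      intro e he
      rw [mem_inter, hQe i, hQe j, mem_insert, mem_insert] at he
      obtain ⟨h1, h2⟩ := he
      have hF : ∀ i e, e ∈ F u k (t i) → e ∈ P u k := by
        intro i e he
        obtain ⟨l, _, h4, rfl⟩ := (mem_F u k _ e).1 he
        exact (E_mem_P hn u k l).2 h4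
      rcases h1 with h1 | h1
      · exfalso
        rcases h2 with h2 | h2
        · exact hcon.2 (h1.symm.trans h2)
        · exact hx i (h1 ▸ hF j e h2)
      · rcases h2 with h2 | h2
        · exact absurd (h2 ▸ hF i e h1) (hx j)
        · obtain ⟨l, h3, h4, rfl⟩ := (mem_F u k _ e).1 h1
          obtain ⟨h5, h6⟩ := (E_mem_F hn u k _ l).1 h2
          rw [mem_image]
          exact ⟨l, by simp [h3, h4, h5], rfl⟩
    have h1 := card_le_card hsub
    rw [card_three hn u (ht i) (ht j) (Ne.symm hcon.1), (hij i j hne).2] at h1
    omega
  have notboth : ∀ i j, i ≠ j → ¬ (t i = t j ∧ x i = x j) := by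
    rintro i j hne ⟨h1, h2⟩
    apply (hij i j hne).1
    rw [hQe i, hQe j, h1, h2]
  by_cases hx0 : x 0 = E u k
  · refine ⟨t 0, ?_⟩
    rw [hQe 0, hx0, P_eq_insert u (Ne.symm (ht 0)), F_comm]
  · exfalso
    have hAinj : ∀ a b, A u k a = A u k b → a = b := by
      intro a b hab
      unfold A at hab
      rw [Sym2.eq_iff] at hab
      rcases hab with ⟨_, h1⟩ | ⟨h1, h2⟩
      · have := u.injective h1
        linear_combination this
      · have := u.injective h1
        have := u.injective h2
        linear_combination this + u.injective h1
    have hBinj : ∀ a b, B u k a = B u k b → a = b := by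
      intro a b hab
      unfold B at hab
      rw [Sym2.eq_iff] at hab
      rcases hab with ⟨h1, _⟩ | ⟨h1, h2⟩
      · exact u.injective h1
      · rw [u.injective h1, ← u.injective h2]
    rcases coll 0 1 (by decide) with c1 | c1
    · -- all in the same row
      have d2 : t 0 = t 2 := by
        rcases coll 0 2 (by decide) with c2 | c2
        · exact c2
        · rcases coll 1 2 (by decide) with c3 | c3
          · exact c1.trans c3
          · exact absurd ⟨c1, c2.trans c3.symm⟩ (notboth 0 1 (by decide))
      have d3 : t 0 = t 3 := by
        rcases coll 0 3 (by decide) with c2 | c2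
        · exact c2
        · rcases coll 1 3 (by decide) with c3 | c3
          · exact c1.trans c3
          · exact absurd ⟨c1, c2.trans c3.symm⟩ (notboth 0 1 (by decide))
      have n01 : x 0 ≠ x 1 := fun hh => notboth 0 1 (by decide) ⟨c1, hh⟩
      have n02 : x 0 ≠ x 2 := fun hh => notboth 0 2 (by decide) ⟨d2, hh⟩
      have n03 : x 0 ≠ x 3 := fun hh => notboth 0 3 (by decide) ⟨d3, hh⟩
      have n12 : x 1 ≠ x 2 := fun hh => notboth 1 2 (by decide) ⟨c1.symm.trans d2, hh⟩
      have n13 : x 1 ≠ x 3 := fun hh => notboth 1 3 (by decide) ⟨c1.symm.trans d3, hh⟩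
      have n23 : x 2 ≠ x 3 := fun hh => notboth 2 3 (by decide) ⟨d2.symm.trans d3, hh⟩
      have e0 := hxx 0
      have e1 := hxx 1
      have e2 := hxx 2
      have e3 := hxx 3
      rw [← c1] at e1
      rw [← d2] at e2
      rw [← d3] at e3
      rcases e0 with e0 | e0 | e0 <;> rcases e1 with e1 | e1 | e1 <;>
        rcases e2 with e2 | e2 | e2 <;> rcases e3 with e3 | e3 | e3 <;>
        first
        | exact n01 (e0.trans e1.symm)
        | exact n02 (e0.trans e2.symm)
        | exact n03 (e0.trans e3.symm)
        | exact n12 (e1.trans e2.symm)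
        | exact n13 (e1.trans e3.symm)
        | exact n23 (e2.trans e3.symm)
    · -- all in the same column
      have d2 : x 0 = x 2 := by
        rcases coll 0 2 (by decide) with c2 | c2
        · rcases coll 1 2 (by decide) with c3 | c3
          · exact absurd ⟨c2.trans c3.symm, c1⟩ (notboth 0 1 (by decide))
          · exact c1.trans c3
        · exact c2
      have n01 : t 0 ≠ t 1 := fun hh => notboth 0 1 (by decide) ⟨hh, c1⟩
      have n02 : t 0 ≠ t 2 := fun hh => notboth 0 2 (by decide) ⟨hh, d2⟩
      have n12 : t 1 ≠ t 2 := fun hh => notboth 1 2 (by decide) ⟨hh, c1.symm.trans d2⟩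
      have e0 := hxx 0
      have e1 := hxx 1
      have e2 := hxx 2
      rw [← c1] at e1
      rw [← d2] at e2
      rcases e0 with e0 | e0 | e0 <;> rcases e1 with e1 | e1 | e1 <;>
        rcases e2 with e2 | e2 | e2 <;>
        first
        | exact hx0 e0
        | exact hx0 e1
        | exact hx0 e2
        | exact n01 (hAinj _ _ (e0.symm.trans e1))
        | exact n02 (hAinj _ _ (e0.symm.trans e2))
        | exact n12 (hAinj _ _ (e1.symm.trans e2))
        | exact n01 (hBinj _ _ (e0.symm.trans e1))
        | exact n02 (hBinj _ _ (e0.symm.trans e2))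
        | exact n12 (hBinj _ _ (e1.symm.trans e2))

/-- An injective self-map of the cycle with steps `±1` is dihedral. -/
theorem dihedral (hn : 5 ≤ n) (d : ZMod n → ZMod n) (hd : Function.Injective d)
    (h : ∀ k, d (k + 1) = d k + 1 ∨ d (k + 1) = d k - 1) :
    (∀ k, d k = d 0 + k) ∨ (∀ k, d k = d 0 - k) := by
  have step : ∀ k, (d (k + 1) = d k + 1 → d (k + 1 + 1) = d (k + 1) + 1) ∧
      (d (k + 1) = d k - 1 → d (k + 1 + 1) = d (k + 1) - 1) := by
    intro k
    have hne : k + 1 + 1 ≠ k := by
      intro hh
      apply two_ne hn
      linear_combination hh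
    constructor
    · intro h1
      rcases h (k + 1) with h2 | h2
      · exact h2
      · exfalso
        apply hne
        apply hd
        rw [h2, h1]
        ring
    · intro h1
      rcases h (k + 1) with h2 | h2
      · exfalso
        apply hne
        apply hd
        rw [h2, h1]
        ring
      · exact h2
  rcases h 0 with h0 | h0
  · left
    have key : ∀ m : ℕ, d (m : ZMod n) = d 0 + m ∧ d ((m : ZMod n) + 1) = d (m : ZMod n) + 1 := by
      intro m
      induction m with
      | zero =>
        refine ⟨by simp, ?_⟩
        rw [Nat.cast_zero]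
        exact h0
      | succ m ih =>
        refine ⟨?_, ?_⟩
        · push_cast
          rw [ih.2, ih.1]
          ring
        · push_cast
          exact (step _).1 ih.2
    intro k
    have := (key k.val).1
    rwa [ZMod.natCast_zmod_val] at this
  · right
    have key : ∀ m : ℕ, d (m : ZMod n) = d 0 - m ∧ d ((m : ZMod n) + 1) = d (m : ZMod n) - 1 := by
      intro m
      induction m with
      | zero =>
        refine ⟨by simp, ?_⟩
        rw [Nat.cast_zero]
        exact h0
      | succ m ih =>
        refine ⟨?_, ?_⟩
        · push_cast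
          rw [ih.2, ih.1]
          ring
        · push_cast
          exact (step _).2 ih.2
    intro k
    have := (key k.val).1
    rwa [ZMod.natCast_zmod_val] at this

theorem P_inj (hn : 5 ≤ n) (w : ZMod n ≃ V) {k l : ZMod n} (h : P w k = P w l) : k = l := by
  by_contra hne
  have h1 : E w l ∈ P w k := (E_mem_P hn w k l).2 (Ne.symm hne)
  rw [h] at h1
  exact (E_mem_P hn w l l).1 h1 rfl

theorem adj_PP (hn : 5 ≤ n) (w : ZMod n ≃ V) {k l : ZMod n} (h : k ≠ l) :
    Adj n (P w k) (P w l) := by
  rw [P_eq_insert w (Ne.symm h), P_eq_insert w h, F_comm w l k]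
  refine adj_insert (card_F hn w (Ne.symm h)) (fun hh => ((E_mem_F hn w k l l).1 hh).1 rfl) ?_
  intro hh
  exact h (E_inj hn w hh).symm

theorem P_of_E (u u' : ZMod n ≃ V) (g : ZMod n ≃ ZMod n) (h : ∀ l, E u' l = E u (g l))
    (k : ZMod n) : P u' k = P u (g k) := by
  ext e
  rw [mem_P, mem_P]
  constructor
  · rintro ⟨l, hl, rfl⟩
    exact ⟨g l, fun hh => hl (g.injective hh), (h l).symm⟩
  · rintro ⟨l, hl, rfl⟩
    refine ⟨g.symm l, fun hh => hl (by rw [← hh, g.apply_symm_apply]), ?_⟩
    rw [h, g.apply_symm_apply]

/-- A cyclic sequence is determined by its paths. -/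
theorem seq_unique (hn : 5 ≤ n) (u u' : ZMod n ≃ V) (h : ∀ k, P u k = P u' k) : u = u' := by
  have hE : ∀ k, E u k = E u' k := by
    intro k
    have hne : k ≠ k + 1 := by
      intro hh
      apply one_ne hn
      linear_combination -hh
    have h1 : E u k ∈ P u (k + 1) := (E_mem_P hn u (k + 1) k).2 hne
    rw [h, mem_P] at h1
    obtain ⟨m, _, hm⟩ := h1
    by_cases hmk : m = k
    · rw [← hm, hmk]
    · exfalso
      have h2 : E u' m ∈ P u' k := (E_mem_P hn u' k m).2 hmk
      rw [hm, ← h] at h2
      exact (E_mem_P hn u k k).1 h2 rfl
  apply Equiv.ext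
  intro k
  have h1 := hE k
  have h2 := hE (k + 1)
  unfold E at h1 h2
  rw [Sym2.eq_iff] at h1 h2
  rcases h1 with ⟨h1, _⟩ | ⟨h1, h1'⟩
  · exact h1
  · exfalso
    rcases h2 with ⟨h2, _⟩ | ⟨_, h2'⟩
    · rw [← h1] at h2
      have := u.injective h2
      apply one_ne hn
      linear_combination this
    · rw [← h1] at h2'
      have := u.injective h2'
      apply two_ne hn
      linear_combination this

theorem A_ne (w : ZMod n ≃ V) {k t : ZMod n} (h1 : t ≠ k + 1) (h2 : k ≠ t + 1) (m : ZMod n) :
    A w k t ≠ E w m := by
  intro hm
  unfold A E at hm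
  rw [Sym2.eq_iff] at hm
  rcases hm with ⟨a1, a2⟩ | ⟨a1, a2⟩
  · have b1 := w.injective a1
    have b2 := w.injective a2
    apply h1
    linear_combination b2 - b1
  · have b1 := w.injective a1
    have b2 := w.injective a2
    apply h2
    linear_combination b1 - b2

theorem B_ne (w : ZMod n ≃ V) {k t : ZMod n} (h1 : t ≠ k + 1) (h2 : k ≠ t + 1) (m : ZMod n) :
    B w k t ≠ E w m := by
  intro hm
  unfold B E at hm
  rw [Sym2.eq_iff] at hm
  rcases hm with ⟨a1, a2⟩ | ⟨a1, a2⟩
  · have b1 := w.injective a1
    have b2 := w.injective a2
    apply h2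
    linear_combination b2 - b1
  · have b1 := w.injective a1
    have b2 := w.injective a2
    apply h1
    linear_combination b1 - b2

/-- The transposition of two consecutive positions. -/
def sw (a : ZMod n) : ZMod n ≃ ZMod n := Equiv.swap a (a + 1)

/-- The reflection exchanging the positions `a` and `a + 1`. -/
def rho (a : ZMod n) : ZMod n ≃ ZMod n := Equiv.subLeft (2 * a + 1)

theorem rho_apply (a x : ZMod n) : rho a x = 2 * a + 1 - x := rfl

theorem swap_data (hn : 5 ≤ n) (w : ZMod n ≃ V) (i : ZMod n) :
    P ((sw i).trans w) (i - 1) = insert (A w (i - 1) (i + 1)) (F w (i - 1) (i + 1)) ∧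
    P ((sw i).trans w) (i + 1) = insert (B w (i - 1) (i + 1)) (F w (i - 1) (i + 1)) := by
  have one := one_ne hn
  have two := two_ne hn
  have three := three_ne hn
  have hne : i + 1 ≠ i - 1 := by
    intro hh; apply two; linear_combination hh
  have s0 : sw i i = i + 1 := Equiv.swap_apply_left _ _
  have s1 : sw i (i + 1) = i := Equiv.swap_apply_right _ _
  have sN : ∀ x, x ≠ i → x ≠ i + 1 → sw i x = x := fun x h1 h2 =>
    Equiv.swap_apply_of_ne_of_ne h1 h2
  have hv : ∀ x, ((sw i).trans w) x = w (sw i x) := fun x => rfl
  apply P_eq_of w ((sw i).trans w) hne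
  · have hsub : F ((sw i).trans w) (i - 1) (i + 1) ⊆ F w (i - 1) (i + 1) := by
      intro e he
      obtain ⟨l, h1, h2, rfl⟩ := (mem_F _ _ _ e).1 he
      have : E ((sw i).trans w) l = E w l := by
        unfold E
        rw [hv, hv]
        by_cases hl : l = i
        · subst hl
          rw [s0, s1]
          exact Sym2.eq_swap
        · rw [sN l hl h1, sN (l + 1) (fun hh => h2 (by linear_combination hh))
            (fun hh => hl (by linear_combination hh))]
      rw [this, E_mem_F hn]
      exact ⟨h1, h2⟩
    apply eq_of_subset_of_card_le hsub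
    rw [card_F hn w hne, card_F hn _ hne]
  · unfold E B
    rw [hv, hv, sub_add_cancel, s0, sN (i - 1) (fun hh => one (by linear_combination -hh))
      (fun hh => two (by linear_combination -hh))]
    exact Sym2.eq_swap
  · unfold E A
    rw [hv, hv, s1, sN (i + 1 + 1) (fun hh => two (by linear_combination hh))
      (fun hh => one (by linear_combination hh)), sub_add_cancel]

/-- The four paths containing a cycle without two edges at distance two. -/
theorem swap_step (hn : 5 ≤ n) (u u' : ZMod n ≃ V) (i : ZMod n)
    (h1 : Adj n (P u (i - 1)) (P u' (i - 1))) (h2 : Adj n (P u (i + 1)) (P u' (i - 1)))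
    (h3 : Adj n (P u (i - 1)) (P u' (i + 1))) (h4 : Adj n (P u (i + 1)) (P u' (i + 1)))
    (h5 : ∀ m, P u' (i - 1) ≠ P u m) (h6 : ∀ m, P u' (i + 1) ≠ P u m) :
    u' = (sw i).trans u ∨ u' = (rho i).trans ((sw i).trans u) := by
  have one := one_ne hn
  have two := two_ne hn
  have three := three_ne hn
  have four := four_ne hn
  have hne : i + 1 ≠ i - 1 := by
    intro hh; apply two; linear_combination hh
  obtain ⟨q1, q2⟩ := swap_data hn u i
  set v : ZMod n ≃ V := (sw i).trans u with hv
  obtain ⟨x, _, _, ex, hx⟩ := nbr_two hn u hne ⟨u', _, rfl⟩ h1 h2 h5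
  obtain ⟨y, _, _, ey, hy⟩ := nbr_two hn u hne ⟨u', _, rfl⟩ h3 h4 h6
  have hxy : x ≠ y := by
    rintro rfl
    exact hne (P_inj hn u' (ex.trans ey.symm)).symm
  -- the two paths of `u'`
  have cases : (P u' (i - 1) = P v (i - 1) ∧ P u' (i + 1) = P v (i + 1)) ∨
      (P u' (i - 1) = P v (i + 1) ∧ P u' (i + 1) = P v (i - 1)) := by
    rcases hx with hx | hx <;> rcases hy with hy | hy
    · exact absurd (hx.trans hy.symm) hxy
    · left; rw [ex, ey, hx, hy, q1, q2]; exact ⟨rfl, rfl⟩
    · right; rw [ex, ey, hx, hy, q1, q2]; exact ⟨rfl, rfl⟩
    · exact absurd (hx.trans hy.symm) hxy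
  have hmem : ∀ k, ∃ m, E u' k = E v m := by
    intro k
    have : E u' k ∈ P u' (i - 1) ∨ E u' k ∈ P u' (i + 1) := by
      rw [E_mem_P hn, E_mem_P hn]
      by_cases hk : k = i - 1
      · right; rw [hk]; exact hne.symm
      · left; exact hk
    have hP : ∀ j e, e ∈ P v j → ∃ m, e = E v m := by
      intro j e he
      obtain ⟨m, _, hm⟩ := (mem_P v j e).1 he
      exact ⟨m, hm.symm⟩
    rcases cases with ⟨c1, c2⟩ | ⟨c1, c2⟩ <;> rw [c1, c2] at this <;>
      rcases this with h | h <;> exact hP _ _ h
  have hmiss : ∀ j m, P u' j = P v m → E u' j = E v m := by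
    intro j m hjm
    obtain ⟨m', hm'⟩ := hmem j
    by_cases hmm : m' = m
    · rw [hm', hmm]
    · exfalso
      have : E v m' ∈ P v m := (E_mem_P hn v m m').2 hmm
      rw [← hm', ← hjm] at this
      exact (E_mem_P hn u' j j).1 this rfl
  -- the comparison map
  let d : ZMod n → ZMod n := fun k => v.symm (u' k)
  have hd : Function.Injective d := fun a b hab => u'.injective (v.symm.injective hab)
  have hEd : ∀ k m, E u' k = E v m → (d k = m ∧ d (k + 1) = m + 1) ∨
      (d k = m + 1 ∧ d (k + 1) = m) := by
    intro k m hkm
    unfold E at hkm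
    rw [Sym2.eq_iff] at hkm
    rcases hkm with ⟨a, b⟩ | ⟨a, b⟩
    · left
      exact ⟨by simp only [d]; rw [a, Equiv.symm_apply_apply],
        by simp only [d]; rw [b, Equiv.symm_apply_apply]⟩
    · right
      exact ⟨by simp only [d]; rw [a, Equiv.symm_apply_apply],
        by simp only [d]; rw [b, Equiv.symm_apply_apply]⟩
  have hstep : ∀ k, d (k + 1) = d k + 1 ∨ d (k + 1) = d k - 1 := by
    intro k
    obtain ⟨m, hm⟩ := hmem k
    rcases hEd k m hm with ⟨a, b⟩ | ⟨a, b⟩
    · left; rw [a, b]
    · right; rw [a, b]; ring
  have hback : ∀ k, u' k = v (d k) := by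
    intro k
    simp only [d]
    rw [Equiv.apply_symm_apply]
  rcases dihedral hn d hd hstep with hdi | hdi
  · rcases cases with ⟨c1, c2⟩ | ⟨c1, c2⟩
    · left
      apply Equiv.ext
      intro k
      have e1 := hEd _ _ (hmiss _ _ c1)
      rw [hdi (i - 1), hdi (i - 1 + 1)] at e1
      have hz : d 0 = 0 := by
        rcases e1 with ⟨a, _⟩ | ⟨a, b⟩
        · linear_combination a
        · exfalso
          apply two
          linear_combination b - a
      rw [hback, hdi, hz, zero_add]
    · exfalso
      have e1 := hEd _ _ (hmiss _ _ c1)
      have e2 := hEd _ _ (hmiss _ _ c2)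
      rw [hdi (i - 1), hdi (i - 1 + 1)] at e1
      rw [hdi (i + 1), hdi (i + 1 + 1)] at e2
      rcases e1 with ⟨a, b⟩ | ⟨a, b⟩
      · rcases e2 with ⟨a', b'⟩ | ⟨a', b'⟩
        · apply four; linear_combination a' - a
        · apply three; linear_combination a' - a
      · apply two; linear_combination b - a
  · rcases cases with ⟨c1, c2⟩ | ⟨c1, c2⟩
    · exfalso
      have e1 := hEd _ _ (hmiss _ _ c1)
      have e2 := hEd _ _ (hmiss _ _ c2)
      rw [hdi (i - 1), hdi (i - 1 + 1)] at e1
      rw [hdi (i + 1), hdi (i + 1 + 1)] at e2
      rcases e1 with ⟨a, b⟩ | ⟨a, b⟩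
      · apply two; linear_combination a - b
      · rcases e2 with ⟨a', b'⟩ | ⟨a', b'⟩
        · apply three; linear_combination a - a'
        · apply four; linear_combination a - a'
    · right
      apply Equiv.ext
      intro k
      have e1 := hEd _ _ (hmiss _ _ c1)
      rw [hdi (i - 1), hdi (i - 1 + 1)] at e1
      have hz : d 0 = 2 * i + 1 := by
        rcases e1 with ⟨a, b⟩ | ⟨a, b⟩
        · exfalso
          apply two
          linear_combination a - b
        · linear_combination a
      rw [hback, hdi, hz]
      rfl

/-- The commuting square: the wrong sign is impossible. -/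
theorem square (hn : 5 ≤ n) (i : ZMod n) (l : ZMod n → ZMod n)
    (hl : (∀ x, l x = sw i (rho i (sw (i + 2) x))) ∨
      (∀ x, l x = sw i (rho i (sw (i + 2) (rho (i + 2) x)))))
    (hr : (∀ x, l x = sw (i + 2) (sw i x)) ∨ (∀ x, l x = sw (i + 2) (sw i (rho i x))) ∨
      (∀ x, l x = sw (i + 2) (rho (i + 2) (sw i x))) ∨
      (∀ x, l x = sw (i + 2) (rho (i + 2) (sw i (rho i x))))) : False := by
  have one := one_ne hn
  have two := two_ne hn
  have three := three_ne hn
  have four := four_ne hn
  have A0 : sw i (i + (0 : ZMod n)) = i + 1 := by rw [add_zero]; exact Equiv.swap_apply_left _ _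
  have A1 : sw i (i + (1 : ZMod n)) = i + 0 := by rw [add_zero]; exact Equiv.swap_apply_right _ _
  have AN : ∀ c : ZMod n, c ≠ 0 → c ≠ 1 → sw i (i + c) = i + c := fun c h0 h1 =>
    Equiv.swap_apply_of_ne_of_ne (fun hh => h0 (by linear_combination hh))
      (fun hh => h1 (by linear_combination hh))
  have B2 : sw (i + 2) (i + (2 : ZMod n)) = i + 3 := by
    have : sw (i + 2) (i + (2 : ZMod n)) = i + 2 + 1 := Equiv.swap_apply_left _ _
    rw [this]; ring
  have B3 : sw (i + 2) (i + (3 : ZMod n)) = i + 2 := by
    have : sw (i + 2) (i + 2 + 1) = i + 2 := Equiv.swap_apply_right _ _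
    rw [show i + (3 : ZMod n) = i + 2 + 1 by ring, this]
  have BN : ∀ c : ZMod n, c ≠ 2 → c ≠ 3 → sw (i + 2) (i + c) = i + c := fun c h0 h1 =>
    Equiv.swap_apply_of_ne_of_ne (fun hh => h0 (by linear_combination hh))
      (fun hh => h1 (by linear_combination hh))
  have R0 : ∀ c : ZMod n, rho i (i + c) = i + (1 - c) := fun c => by rw [rho_apply]; ring
  have R2 : ∀ c : ZMod n, rho (i + 2) (i + c) = i + (5 - c) := fun c => by rw [rho_apply]; ring
  have la : sw i (rho i (sw (i + 2) (i + (0 : ZMod n)))) = i + (0 : ZMod n) ∧ sw (i + 2) (sw i (i + (0 : ZMod n))) = i + (1 : ZMod n) := by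
    constructor
    · rw [BN (0 : ZMod n) (by intro hh; first | exact one (by linear_combination hh) | exact one (by linear_combination -hh) | exact two (by linear_combination hh) | exact two (by linear_combination -hh) | exact three (by linear_combination hh) | exact three (by linear_combination -hh) | exact four (by linear_combination hh) | exact four (by linear_combination -hh)) (by intro hh; first | exact one (by linear_combination hh) | exact one (by linear_combination -hh) | exact two (by linear_combination hh) | exact two (by linear_combination -hh) | exact three (by linear_combination hh) | exact three (by linear_combination -hh) | exact four (by linear_combination hh) | exact four (by linear_combination -hh)),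
        R0 (0 : ZMod n),
        show (1 : ZMod n) - (0 : ZMod n) = (1 : ZMod n) by ring,
        A1]
    · rw [A0,
        BN (1 : ZMod n) (by intro hh; first | exact one (by linear_combination hh) | exact one (by linear_combination -hh) | exact two (by linear_combination hh) | exact two (by linear_combination -hh) | exact three (by linear_combination hh) | exact three (by linear_combination -hh) | exact four (by linear_combination hh) | exact four (by linear_combination -hh)) (by intro hh; first | exact one (by linear_combination hh) | exact one (by linear_combination -hh) | exact two (by linear_combination hh) | exact two (by linear_combination -hh) | exact three (by linear_combination hh) | exact three (by linear_combination -hh) | exact four (by linear_combination hh) | exact four (by linear_combination -hh))]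
  have lb : sw i (rho i (sw (i + 2) (i + (2 : ZMod n)))) = i + (-2 : ZMod n) ∧ sw (i + 2) (sw i (rho i (i + (2 : ZMod n)))) = i + (-1 : ZMod n) := by
    constructor
    · rw [B2,
        R0 (3 : ZMod n),
        show (1 : ZMod n) - (3 : ZMod n) = (-2 : ZMod n) by ring,
        AN (-2 : ZMod n) (by intro hh; first | exact one (by linear_combination hh) | exact one (by linear_combination -hh) | exact two (by linear_combination hh) | exact two (by linear_combination -hh) | exact three (by linear_combination hh) | exact three (by linear_combination -hh) | exact four (by linear_combination hh) | exact four (by linear_combination -hh)) (by intro hh; first | exact one (by linear_combination hh) | exact one (by linear_combination -hh) | exact two (by linear_combination hh) | exact two (by linear_combination -hh) | exact three (by linear_combination hh) | exact three (by linear_combination -hh) | exact four (by linear_combination hh) | exact four (by linear_combination -hh))]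
    · rw [R0 (2 : ZMod n),
        show (1 : ZMod n) - (2 : ZMod n) = (-1 : ZMod n) by ring,
        AN (-1 : ZMod n) (by intro hh; first | exact one (by linear_combination hh) | exact one (by linear_combination -hh) | exact two (by linear_combination hh) | exact two (by linear_combination -hh) | exact three (by linear_combination hh) | exact three (by linear_combination -hh) | exact four (by linear_combination hh) | exact four (by linear_combination -hh)) (by intro hh; first | exact one (by linear_combination hh) | exact one (by linear_combination -hh) | exact two (by linear_combination hh) | exact two (by linear_combination -hh) | exact three (by linear_combination hh) | exact three (by linear_combination -hh) | exact four (by linear_combination hh) | exact four (by linear_combination -hh)),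
        BN (-1 : ZMod n) (by intro hh; first | exact one (by linear_combination hh) | exact one (by linear_combination -hh) | exact two (by linear_combination hh) | exact two (by linear_combination -hh) | exact three (by linear_combination hh) | exact three (by linear_combination -hh) | exact four (by linear_combination hh) | exact four (by linear_combination -hh)) (by intro hh; first | exact one (by linear_combination hh) | exact one (by linear_combination -hh) | exact two (by linear_combination hh) | exact two (by linear_combination -hh) | exact three (by linear_combination hh) | exact three (by linear_combination -hh) | exact four (by linear_combination hh) | exact four (by linear_combination -hh))]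
  have lc : sw i (rho i (sw (i + 2) (i + (0 : ZMod n)))) = i + (0 : ZMod n) ∧ sw (i + 2) (rho (i + 2) (sw i (i + (0 : ZMod n)))) = i + (4 : ZMod n) := by
    constructor
    · rw [BN (0 : ZMod n) (by intro hh; first | exact one (by linear_combination hh) | exact one (by linear_combination -hh) | exact two (by linear_combination hh) | exact two (by linear_combination -hh) | exact three (by linear_combination hh) | exact three (by linear_combination -hh) | exact four (by linear_combination hh) | exact four (by linear_combination -hh)) (by intro hh; first | exact one (by linear_combination hh) | exact one (by linear_combination -hh) | exact two (by linear_combination hh) | exact two (by linear_combination -hh) | exact three (by linear_combination hh) | exact three (by linear_combination -hh) | exact four (by linear_combination hh) | exact four (by linear_combination -hh)),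
        R0 (0 : ZMod n),
        show (1 : ZMod n) - (0 : ZMod n) = (1 : ZMod n) by ring,
        A1]
    · rw [A0,
        R2 (1 : ZMod n),
        show (5 : ZMod n) - (1 : ZMod n) = (4 : ZMod n) by ring,
        BN (4 : ZMod n) (by intro hh; first | exact one (by linear_combination hh) | exact one (by linear_combination -hh) | exact two (by linear_combination hh) | exact two (by linear_combination -hh) | exact three (by linear_combination hh) | exact three (by linear_combination -hh) | exact four (by linear_combination hh) | exact four (by linear_combination -hh)) (by intro hh; first | exact one (by linear_combination hh) | exact one (by linear_combination -hh) | exact two (by linear_combination hh) | exact two (by linear_combination -hh) | exact three (by linear_combination hh) | exact three (by linear_combination -hh) | exact four (by linear_combination hh) | exact four (by linear_combination -hh))]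
  have ld : sw i (rho i (sw (i + 2) (i + (1 : ZMod n)))) = i + (1 : ZMod n) ∧ sw (i + 2) (rho (i + 2) (sw i (rho i (i + (1 : ZMod n))))) = i + (4 : ZMod n) := by
    constructor
    · rw [BN (1 : ZMod n) (by intro hh; first | exact one (by linear_combination hh) | exact one (by linear_combination -hh) | exact two (by linear_combination hh) | exact two (by linear_combination -hh) | exact three (by linear_combination hh) | exact three (by linear_combination -hh) | exact four (by linear_combination hh) | exact four (by linear_combination -hh)) (by intro hh; first | exact one (by linear_combination hh) | exact one (by linear_combination -hh) | exact two (by linear_combination hh) | exact two (by linear_combination -hh) | exact three (by linear_combination hh) | exact three (by linear_combination -hh) | exact four (by linear_combination hh) | exact four (by linear_combination -hh)),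
        R0 (1 : ZMod n),
        show (1 : ZMod n) - (1 : ZMod n) = (0 : ZMod n) by ring,
        A0]
    · rw [R0 (1 : ZMod n),
        show (1 : ZMod n) - (1 : ZMod n) = (0 : ZMod n) by ring,
        A0,
        R2 (1 : ZMod n),
        show (5 : ZMod n) - (1 : ZMod n) = (4 : ZMod n) by ring,
        BN (4 : ZMod n) (by intro hh; first | exact one (by linear_combination hh) | exact one (by linear_combination -hh) | exact two (by linear_combination hh) | exact two (by linear_combination -hh) | exact three (by linear_combination hh) | exact three (by linear_combination -hh) | exact four (by linear_combination hh) | exact four (by linear_combination -hh)) (by intro hh; first | exact one (by linear_combination hh) | exact one (by linear_combination -hh) | exact two (by linear_combination hh) | exact two (by linear_combination -hh) | exact three (by linear_combination hh) | exact three (by linear_combination -hh) | exact four (by linear_combination hh) | exact four (by linear_combination -hh))]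
  have ma : sw i (rho i (sw (i + 2) (rho (i + 2) (i + (4 : ZMod n))))) = i + (1 : ZMod n) ∧ sw (i + 2) (sw i (i + (4 : ZMod n))) = i + (4 : ZMod n) := by
    constructor
    · rw [R2 (4 : ZMod n),
        show (5 : ZMod n) - (4 : ZMod n) = (1 : ZMod n) by ring,
        BN (1 : ZMod n) (by intro hh; first | exact one (by linear_combination hh) | exact one (by linear_combination -hh) | exact two (by linear_combination hh) | exact two (by linear_combination -hh) | exact three (by linear_combination hh) | exact three (by linear_combination -hh) | exact four (by linear_combination hh) | exact four (by linear_combination -hh)) (by intro hh; first | exact one (by linear_combination hh) | exact one (by linear_combination -hh) | exact two (by linear_combination hh) | exact two (by linear_combination -hh) | exact three (by linear_combination hh) | exact three (by linear_combination -hh) | exact four (by linear_combination hh) | exact four (by linear_combination -hh)),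
        R0 (1 : ZMod n),
        show (1 : ZMod n) - (1 : ZMod n) = (0 : ZMod n) by ring,
        A0]
    · rw [AN (4 : ZMod n) (by intro hh; first | exact one (by linear_combination hh) | exact one (by linear_combination -hh) | exact two (by linear_combination hh) | exact two (by linear_combination -hh) | exact three (by linear_combination hh) | exact three (by linear_combination -hh) | exact four (by linear_combination hh) | exact four (by linear_combination -hh)) (by intro hh; first | exact one (by linear_combination hh) | exact one (by linear_combination -hh) | exact two (by linear_combination hh) | exact two (by linear_combination -hh) | exact three (by linear_combination hh) | exact three (by linear_combination -hh) | exact four (by linear_combination hh) | exact four (by linear_combination -hh)),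
        BN (4 : ZMod n) (by intro hh; first | exact one (by linear_combination hh) | exact one (by linear_combination -hh) | exact two (by linear_combination hh) | exact two (by linear_combination -hh) | exact three (by linear_combination hh) | exact three (by linear_combination -hh) | exact four (by linear_combination hh) | exact four (by linear_combination -hh)) (by intro hh; first | exact one (by linear_combination hh) | exact one (by linear_combination -hh) | exact two (by linear_combination hh) | exact two (by linear_combination -hh) | exact three (by linear_combination hh) | exact three (by linear_combination -hh) | exact four (by linear_combination hh) | exact four (by linear_combination -hh))]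
  have mb : sw i (rho i (sw (i + 2) (rho (i + 2) (i + (1 : ZMod n))))) = i + (-3 : ZMod n) ∧ sw (i + 2) (sw i (rho i (i + (1 : ZMod n)))) = i + (1 : ZMod n) := by
    constructor
    · rw [R2 (1 : ZMod n),
        show (5 : ZMod n) - (1 : ZMod n) = (4 : ZMod n) by ring,
        BN (4 : ZMod n) (by intro hh; first | exact one (by linear_combination hh) | exact one (by linear_combination -hh) | exact two (by linear_combination hh) | exact two (by linear_combination -hh) | exact three (by linear_combination hh) | exact three (by linear_combination -hh) | exact four (by linear_combination hh) | exact four (by linear_combination -hh)) (by intro hh; first | exact one (by linear_combination hh) | exact one (by linear_combination -hh) | exact two (by linear_combination hh) | exact two (by linear_combination -hh) | exact three (by linear_combination hh) | exact three (by linear_combination -hh) | exact four (by linear_combination hh) | exact four (by linear_combination -hh)),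
        R0 (4 : ZMod n),
        show (1 : ZMod n) - (4 : ZMod n) = (-3 : ZMod n) by ring,
        AN (-3 : ZMod n) (by intro hh; first | exact one (by linear_combination hh) | exact one (by linear_combination -hh) | exact two (by linear_combination hh) | exact two (by linear_combination -hh) | exact three (by linear_combination hh) | exact three (by linear_combination -hh) | exact four (by linear_combination hh) | exact four (by linear_combination -hh)) (by intro hh; first | exact one (by linear_combination hh) | exact one (by linear_combination -hh) | exact two (by linear_combination hh) | exact two (by linear_combination -hh) | exact three (by linear_combination hh) | exact three (by linear_combination -hh) | exact four (by linear_combination hh) | exact four (by linear_combination -hh))]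
    · rw [R0 (1 : ZMod n),
        show (1 : ZMod n) - (1 : ZMod n) = (0 : ZMod n) by ring,
        A0,
        BN (1 : ZMod n) (by intro hh; first | exact one (by linear_combination hh) | exact one (by linear_combination -hh) | exact two (by linear_combination hh) | exact two (by linear_combination -hh) | exact three (by linear_combination hh) | exact three (by linear_combination -hh) | exact four (by linear_combination hh) | exact four (by linear_combination -hh)) (by intro hh; first | exact one (by linear_combination hh) | exact one (by linear_combination -hh) | exact two (by linear_combination hh) | exact two (by linear_combination -hh) | exact three (by linear_combination hh) | exact three (by linear_combination -hh) | exact four (by linear_combination hh) | exact four (by linear_combination -hh))]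
  have mc : sw i (rho i (sw (i + 2) (rho (i + 2) (i + (2 : ZMod n))))) = i + (-1 : ZMod n) ∧ sw (i + 2) (rho (i + 2) (sw i (i + (2 : ZMod n)))) = i + (2 : ZMod n) := by
    constructor
    · rw [R2 (2 : ZMod n),
        show (5 : ZMod n) - (2 : ZMod n) = (3 : ZMod n) by ring,
        B3,
        R0 (2 : ZMod n),
        show (1 : ZMod n) - (2 : ZMod n) = (-1 : ZMod n) by ring,
        AN (-1 : ZMod n) (by intro hh; first | exact one (by linear_combination hh) | exact one (by linear_combination -hh) | exact two (by linear_combination hh) | exact two (by linear_combination -hh) | exact three (by linear_combination hh) | exact three (by linear_combination -hh) | exact four (by linear_combination hh) | exact four (by linear_combination -hh)) (by intro hh; first | exact one (by linear_combination hh) | exact one (by linear_combination -hh) | exact two (by linear_combination hh) | exact two (by linear_combination -hh) | exact three (by linear_combination hh) | exact three (by linear_combination -hh) | exact four (by linear_combination hh) | exact four (by linear_combination -hh))]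
    · rw [AN (2 : ZMod n) (by intro hh; first | exact one (by linear_combination hh) | exact one (by linear_combination -hh) | exact two (by linear_combination hh) | exact two (by linear_combination -hh) | exact three (by linear_combination hh) | exact three (by linear_combination -hh) | exact four (by linear_combination hh) | exact four (by linear_combination -hh)) (by intro hh; first | exact one (by linear_combination hh) | exact one (by linear_combination -hh) | exact two (by linear_combination hh) | exact two (by linear_combination -hh) | exact three (by linear_combination hh) | exact three (by linear_combination -hh) | exact four (by linear_combination hh) | exact four (by linear_combination -hh)),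
        R2 (2 : ZMod n),
        show (5 : ZMod n) - (2 : ZMod n) = (3 : ZMod n) by ring,
        B3]
  have md : sw i (rho i (sw (i + 2) (rho (i + 2) (i + (4 : ZMod n))))) = i + (1 : ZMod n) := by
    rw [R2 (4 : ZMod n),
        show (5 : ZMod n) - (4 : ZMod n) = (1 : ZMod n) by ring,
        BN (1 : ZMod n) (by intro hh; first | exact one (by linear_combination hh) | exact one (by linear_combination -hh) | exact two (by linear_combination hh) | exact two (by linear_combination -hh) | exact three (by linear_combination hh) | exact three (by linear_combination -hh) | exact four (by linear_combination hh) | exact four (by linear_combination -hh)) (by intro hh; first | exact one (by linear_combination hh) | exact one (by linear_combination -hh) | exact two (by linear_combination hh) | exact two (by linear_combination -hh) | exact three (by linear_combination hh) | exact three (by linear_combination -hh) | exact four (by linear_combination hh) | exact four (by linear_combination -hh)),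
        R0 (1 : ZMod n),
        show (1 : ZMod n) - (1 : ZMod n) = (0 : ZMod n) by ring,
        A0]
  have md' : rho (i + 2) (sw i (rho i (i + (4 : ZMod n)))) = i + (8 : ZMod n) := by
    rw [R0 (4 : ZMod n),
        show (1 : ZMod n) - (4 : ZMod n) = (-3 : ZMod n) by ring,
        AN (-3 : ZMod n) (by intro hh; first | exact one (by linear_combination hh) | exact one (by linear_combination -hh) | exact two (by linear_combination hh) | exact two (by linear_combination -hh) | exact three (by linear_combination hh) | exact three (by linear_combination -hh) | exact four (by linear_combination hh) | exact four (by linear_combination -hh)) (by intro hh; first | exact one (by linear_combination hh) | exact one (by linear_combination -hh) | exact two (by linear_combination hh) | exact two (by linear_combination -hh) | exact three (by linear_combination hh) | exact three (by linear_combination -hh) | exact four (by linear_combination hh) | exact four (by linear_combination -hh)),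
        R2 (-3 : ZMod n),
        show (5 : ZMod n) - (-3 : ZMod n) = (8 : ZMod n) by ring]
  have me : rho i (sw (i + 2) (rho (i + 2) (i + (0 : ZMod n)))) = i + (-4 : ZMod n) := by
    rw [R2 (0 : ZMod n),
        show (5 : ZMod n) - (0 : ZMod n) = (5 : ZMod n) by ring,
        BN (5 : ZMod n) (by intro hh; first | exact one (by linear_combination hh) | exact one (by linear_combination -hh) | exact two (by linear_combination hh) | exact two (by linear_combination -hh) | exact three (by linear_combination hh) | exact three (by linear_combination -hh) | exact four (by linear_combination hh) | exact four (by linear_combination -hh)) (by intro hh; first | exact one (by linear_combination hh) | exact one (by linear_combination -hh) | exact two (by linear_combination hh) | exact two (by linear_combination -hh) | exact three (by linear_combination hh) | exact three (by linear_combination -hh) | exact four (by linear_combination hh) | exact four (by linear_combination -hh)),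
        R0 (5 : ZMod n),
        show (1 : ZMod n) - (5 : ZMod n) = (-4 : ZMod n) by ring]
  have me' : sw (i + 2) (rho (i + 2) (sw i (rho i (i + (0 : ZMod n))))) = i + (5 : ZMod n) := by
    rw [R0 (0 : ZMod n),
        show (1 : ZMod n) - (0 : ZMod n) = (1 : ZMod n) by ring,
        A1,
        R2 (0 : ZMod n),
        show (5 : ZMod n) - (0 : ZMod n) = (5 : ZMod n) by ring,
        BN (5 : ZMod n) (by intro hh; first | exact one (by linear_combination hh) | exact one (by linear_combination -hh) | exact two (by linear_combination hh) | exact two (by linear_combination -hh) | exact three (by linear_combination hh) | exact three (by linear_combination -hh) | exact four (by linear_combination hh) | exact four (by linear_combination -hh)) (by intro hh; first | exact one (by linear_combination hh) | exact one (by linear_combination -hh) | exact two (by linear_combination hh) | exact two (by linear_combination -hh) | exact three (by linear_combination hh) | exact three (by linear_combination -hh) | exact four (by linear_combination hh) | exact four (by linear_combination -hh))]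
  have fin : ∀ c d : ZMod n, c ≠ d → i + c = i + d → False := fun c d h hh =>
    h (by linear_combination hh)
  rcases hl with hl | hl
  · rcases hr with hr | hr | hr | hr
    · exact fin _ _ (by intro hh; first | exact one (by linear_combination hh) | exact one (by linear_combination -hh) | exact two (by linear_combination hh) | exact two (by linear_combination -hh) | exact three (by linear_combination hh) | exact three (by linear_combination -hh) | exact four (by linear_combination hh) | exact four (by linear_combination -hh)) (la.1.symm.trans ((hl _).symm.trans ((hr _).trans la.2)))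
    · exact fin _ _ (by intro hh; first | exact one (by linear_combination hh) | exact one (by linear_combination -hh) | exact two (by linear_combination hh) | exact two (by linear_combination -hh) | exact three (by linear_combination hh) | exact three (by linear_combination -hh) | exact four (by linear_combination hh) | exact four (by linear_combination -hh)) (lb.1.symm.trans ((hl _).symm.trans ((hr _).trans lb.2)))
    · exact fin _ _ (by intro hh; first | exact one (by linear_combination hh) | exact one (by linear_combination -hh) | exact two (by linear_combination hh) | exact two (by linear_combination -hh) | exact three (by linear_combination hh) | exact three (by linear_combination -hh) | exact four (by linear_combination hh) | exact four (by linear_combination -hh)) (lc.1.symm.trans ((hl _).symm.trans ((hr _).trans lc.2)))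
    · exact fin _ _ (by intro hh; first | exact one (by linear_combination hh) | exact one (by linear_combination -hh) | exact two (by linear_combination hh) | exact two (by linear_combination -hh) | exact three (by linear_combination hh) | exact three (by linear_combination -hh) | exact four (by linear_combination hh) | exact four (by linear_combination -hh)) (ld.1.symm.trans ((hl _).symm.trans ((hr _).trans ld.2)))
  · rcases hr with hr | hr | hr | hr
    · exact fin _ _ (by intro hh; first | exact one (by linear_combination hh) | exact one (by linear_combination -hh) | exact two (by linear_combination hh) | exact two (by linear_combination -hh) | exact three (by linear_combination hh) | exact three (by linear_combination -hh) | exact four (by linear_combination hh) | exact four (by linear_combination -hh)) (ma.1.symm.trans ((hl _).symm.trans ((hr _).trans ma.2)))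
    · exact fin _ _ (by intro hh; first | exact one (by linear_combination hh) | exact one (by linear_combination -hh) | exact two (by linear_combination hh) | exact two (by linear_combination -hh) | exact three (by linear_combination hh) | exact three (by linear_combination -hh) | exact four (by linear_combination hh) | exact four (by linear_combination -hh)) (mb.1.symm.trans ((hl _).symm.trans ((hr _).trans mb.2)))
    · exact fin _ _ (by intro hh; first | exact one (by linear_combination hh) | exact one (by linear_combination -hh) | exact two (by linear_combination hh) | exact two (by linear_combination -hh) | exact three (by linear_combination hh) | exact three (by linear_combination -hh) | exact four (by linear_combination hh) | exact four (by linear_combination -hh)) (mc.1.symm.trans ((hl _).symm.trans ((hr _).trans mc.2)))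
    · have h1 : i + (1 : ZMod n) = sw (i + 2) (i + 8) := by
        rw [← md, ← hl, hr, md']
      have h2 : (7 : ZMod n) = 0 := by
        by_cases h8 : (8 : ZMod n) = 2
        · rw [h8, B2] at h1
          exact absurd (by linear_combination -h1) two
        · by_cases h9 : (8 : ZMod n) = 3
          · rw [h9, B3] at h1
            exact absurd (by linear_combination -h1) one
          · rw [BN 8 h8 h9] at h1
            linear_combination -h1
      have h3 : i + (5 : ZMod n) = sw i (i + (-4)) := by
        rw [← me', ← hr, hl, me]
      have h4 : (-4 : ZMod n) ≠ 0 := fun hh => four (by linear_combination -hh)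
      have h5 : (-4 : ZMod n) ≠ 1 := fun hh => two (by linear_combination h2 + hh)
      rw [AN _ h4 h5] at h3
      exact two (by linear_combination h3 - h2)

/-- Abstract automorphisms of the path graph. -/
structure IsAuto (n : ℕ) [NeZero n] {V : Type} [DecidableEq V]
    (Φ : Finset (Sym2 V) → Finset (Sym2 V)) : Prop where
  ham : ∀ Q, Ham n Q → Ham n (Φ Q)
  adj : ∀ Q R, Ham n Q → Ham n R → (Adj n (Φ Q) (Φ R) ↔ Adj n Q R)
  inj : ∀ Q R, Ham n Q → Ham n R → Φ Q = Φ R → Q = R
  surj : ∀ R, Ham n R → ∃ Q, Ham n Q ∧ Φ Q = R

variable {Φ : Finset (Sym2 V) → Finset (Sym2 V)}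

theorem others (hn : 5 ≤ n) (k : ZMod n) (hk : k ≠ 0) : ∃ a b c : ZMod n, a ≠ 0 ∧ b ≠ 0 ∧
    c ≠ 0 ∧ a ≠ k ∧ b ≠ k ∧ c ≠ k ∧ a ≠ b ∧ a ≠ c ∧ b ≠ c := by
  have one := one_ne hn
  have two := two_ne hn
  have three := three_ne hn
  have four := four_ne hn
  have h12 : (1 : ZMod n) ≠ 2 := fun hh => one (by linear_combination -hh)
  have h13 : (1 : ZMod n) ≠ 3 := fun hh => two (by linear_combination -hh)
  have h14 : (1 : ZMod n) ≠ 4 := fun hh => three (by linear_combination -hh)
  have h23 : (2 : ZMod n) ≠ 3 := fun hh => one (by linear_combination -hh)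
  have h24 : (2 : ZMod n) ≠ 4 := fun hh => two (by linear_combination -hh)
  have h34 : (3 : ZMod n) ≠ 4 := fun hh => one (by linear_combination -hh)
  by_cases k1 : (1 : ZMod n) = k
  · subst k1
    exact ⟨2, 3, 4, two, three, four, h12.symm, h13.symm, h14.symm, h23, h24, h34⟩
  · by_cases k2 : (2 : ZMod n) = k
    · subst k2
      exact ⟨1, 3, 4, one, three, four, h12, h23.symm, h24.symm, h13, h14, h34⟩
    · by_cases k3 : (3 : ZMod n) = k
      · subst k3
        exact ⟨1, 2, 4, one, two, four, h13, h23, h34.symm, h12, h14, h24⟩
      · exact ⟨1, 2, 3, one, two, three, k1, k2, k3, h12, h13, h23⟩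

/-- The image of a cyclic sequence. -/
theorem lift (hn : 5 ≤ n) (hΦ : IsAuto n Φ) (w : ZMod n ≃ V) :
    ∃ u : ZMod n ≃ V, ∀ k, Φ (P w k) = P u k := by
  have hw : ∀ k, Ham n (P w k) := fun k => ⟨w, k, rfl⟩
  obtain ⟨u, j0, hu⟩ := hΦ.ham _ (hw 0)
  have hadj : ∀ k l, k ≠ l → Adj n (Φ (P w k)) (Φ (P w l)) := fun k l h =>
    (hΦ.adj _ _ (hw k) (hw l)).2 (adj_PP hn w h)
  have hex : ∀ k, ∃ m, Φ (P w k) = P u m := by
    intro k
    by_cases hk : k = 0
    · rw [hk]; exact ⟨j0, hu⟩
    · obtain ⟨a, b, c, a0, b0, c0, ak, bk, ck, ab, ac, bc⟩ := others hn k hk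
      have h := clique_five hn u j0 ![Φ (P w k), Φ (P w a), Φ (P w b), Φ (P w c)] ?_ ?_ ?_
      · exact h
      · intro i
        fin_cases i
        · exact hΦ.ham _ (hw k)
        · exact hΦ.ham _ (hw a)
        · exact hΦ.ham _ (hw b)
        · exact hΦ.ham _ (hw c)
      · intro i
        rw [← hu]
        fin_cases i
        · exact hadj _ _ (Ne.symm hk)
        · exact hadj _ _ a0.symm
        · exact hadj _ _ b0.symm
        · exact hadj _ _ c0.symm
      · intro i j hij
        fin_cases i <;> fin_cases j <;>
        first
        | exact absurd rfl hij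
        | exact hadj _ _ ak
        | exact hadj _ _ ak.symm
        | exact hadj _ _ bk
        | exact hadj _ _ bk.symm
        | exact hadj _ _ ck
        | exact hadj _ _ ck.symm
        | exact hadj _ _ ab
        | exact hadj _ _ ab.symm
        | exact hadj _ _ ac
        | exact hadj _ _ ac.symm
        | exact hadj _ _ bc
        | exact hadj _ _ bc.symm
  choose π hπ using hex
  have hπi : Function.Injective π := by
    intro a b hab
    have : Φ (P w a) = Φ (P w b) := by rw [hπ, hπ, hab]
    exact P_inj hn w (hΦ.inj _ _ (hw a) (hw b) this)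
  have hstep : ∀ k, π (k + 1) = π k + 1 ∨ π (k + 1) = π k - 1 := by
    intro k
    by_contra hcon
    push Not at hcon
    have hne : π (k + 1) ≠ π k := by
      intro hh
      have := hπi hh
      apply one_ne hn
      linear_combination this
    obtain ⟨Q, hQ, q1, q2, q3⟩ := outside hn u (π k) (π (k + 1)) hne hcon.1
      (fun hh => hcon.2 (by linear_combination -hh))
    obtain ⟨R, hR, rfl⟩ := hΦ.surj Q hQ
    rw [← hπ] at q1 q2
    obtain ⟨m, rfl⟩ := no_outside hn w k hR ((hΦ.adj _ _ (hw _) hR).1 q1)
      ((hΦ.adj _ _ (hw _) hR).1 q2)
    exact q3 _ (hπ m)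
  rcases dihedral hn π hπi hstep with hd | hd
  · refine ⟨(Equiv.addLeft (π 0)).trans u, fun k => ?_⟩
    rw [hπ, hd]
    refine (P_of_E u _ (Equiv.addLeft (π 0)) ?_ k).symm
    intro l
    unfold E
    change s(u (π 0 + l), u (π 0 + (l + 1))) = s(u (π 0 + l), u (π 0 + l + 1))
    rw [add_assoc]
  · refine ⟨(Equiv.subLeft (π 0 + 1)).trans u, fun k => ?_⟩
    rw [hπ, hd]
    refine (P_of_E u _ (Equiv.subLeft (π 0)) ?_ k).symm
    intro l
    unfold E
    change s(u (π 0 + 1 - l), u (π 0 + 1 - (l + 1))) = s(u (π 0 - l), u (π 0 - l + 1))
    rw [show π 0 + 1 - l = π 0 - l + 1 by ring, show π 0 + 1 - (l + 1) = π 0 - l by ring]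
    exact Sym2.eq_swap

/-- Every automorphism is induced by a permutation. -/
theorem main (hn : 5 ≤ n) (hΦ : IsAuto n Φ) (w₀ : ZMod n ≃ V) :
    ∃ σ : Equiv.Perm V, ∀ Q, Ham n Q → Φ Q = Q.image (Sym2.map σ) := by
  choose Ψ hΨ using lift hn hΦ
  have hw : ∀ (w : ZMod n ≃ V) k, Ham n (P w k) := fun w k => ⟨w, k, rfl⟩
  have two := two_ne hn
  have three := three_ne hn
  have alt : ∀ w i, Ψ ((sw i).trans w) = (sw i).trans (Ψ w) ∨
      Ψ ((sw i).trans w) = (rho i).trans ((sw i).trans (Ψ w)) := by
    intro w i
    have hne : i + 1 ≠ i - 1 := by
      intro hh; apply two; linear_combination hh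
    have n1 : i + 1 ≠ i - 1 + 1 := by
      intro hh; apply one_ne hn; linear_combination hh
    have n2 : i - 1 ≠ i + 1 + 1 := by
      intro hh; apply three; linear_combination -hh
    obtain ⟨p1, p2⟩ := swap_data hn w i
    have hA := A_ne w n1 n2
    have hB := B_ne w n1 n2
    have cF := card_F hn w hne
    have e1 : E w (i + 1) ∉ F w (i - 1) (i + 1) := fun hh => ((E_mem_F hn w _ _ _).1 hh).1 rfl
    have e2 : E w (i - 1) ∉ F w (i - 1) (i + 1) := fun hh => ((E_mem_F hn w _ _ _).1 hh).2 rfl
    have a1 : Adj n (P w (i - 1)) (P ((sw i).trans w) (i - 1)) := by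
      rw [p1, P_eq_insert w hne]
      exact adj_insert cF e1 (hA _).symm
    have a2 : Adj n (P w (i + 1)) (P ((sw i).trans w) (i - 1)) := by
      rw [p1, P_eq_insert w hne.symm, F_comm w (i + 1)]
      exact adj_insert cF e2 (hA _).symm
    have a3 : Adj n (P w (i - 1)) (P ((sw i).trans w) (i + 1)) := by
      rw [p2, P_eq_insert w hne]
      exact adj_insert cF e1 (hB _).symm
    have a4 : Adj n (P w (i + 1)) (P ((sw i).trans w) (i + 1)) := by
      rw [p2, P_eq_insert w hne.symm, F_comm w (i + 1)]
      exact adj_insert cF e2 (hB _).symm
    have o1 : ∀ m, P ((sw i).trans w) (i - 1) ≠ P w m := by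
      intro m hm
      rw [p1] at hm
      have : A w (i - 1) (i + 1) ∈ P w m := by rw [← hm]; exact mem_insert_self _ _
      obtain ⟨l, _, hl⟩ := (mem_P w m _).1 this
      exact hA l hl.symm
    have o2 : ∀ m, P ((sw i).trans w) (i + 1) ≠ P w m := by
      intro m hm
      rw [p2] at hm
      have : B w (i - 1) (i + 1) ∈ P w m := by rw [← hm]; exact mem_insert_self _ _
      obtain ⟨l, _, hl⟩ := (mem_P w m _).1 this
      exact hB l hl.symm
    have tr : ∀ {Q R}, Ham n Q → Ham n R → Adj n Q R → Adj n (Φ Q) (Φ R) :=
      fun hQ hR h => (hΦ.adj _ _ hQ hR).2 h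
    apply swap_step hn (Ψ w) (Ψ ((sw i).trans w)) i
    · rw [← hΨ, ← hΨ]; exact tr (hw _ _) (hw _ _) a1
    · rw [← hΨ, ← hΨ]; exact tr (hw _ _) (hw _ _) a2
    · rw [← hΨ, ← hΨ]; exact tr (hw _ _) (hw _ _) a3
    · rw [← hΨ, ← hΨ]; exact tr (hw _ _) (hw _ _) a4
    · intro m hm
      rw [← hΨ, ← hΨ] at hm
      exact o1 m (hΦ.inj _ _ (hw _ _) (hw _ _) hm)
    · intro m hm
      rw [← hΨ, ← hΨ] at hm
      exact o2 m (hΦ.inj _ _ (hw _ _) (hw _ _) hm)
  -- the wrong sign never occurs
  have good : ∀ w i, Ψ ((sw i).trans w) = (sw i).trans (Ψ w) := by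
    intro w i
    rcases alt w i with h | h
    · exact h
    · exfalso
      have hcomm : (sw (i + 2)).trans ((sw i).trans w) = (sw i).trans ((sw (i + 2)).trans w) := by
        apply Equiv.ext
        intro x
        change w (sw i (sw (i + 2) x)) = w (sw (i + 2) (sw i x))
        congr 1
        have hd : Equiv.Perm.Disjoint (sw i) (sw (i + 2)) := by
          apply Equiv.Perm.disjoint_swap_swap
          have one := one_ne hn
          have m1 : i ≠ i + 1 := fun hh => one (by linear_combination -hh)
          have m2 : i ≠ i + 2 := fun hh => two (by linear_combination -hh)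
          have m3 : i ≠ i + 2 + 1 := fun hh => three (by linear_combination -hh)
          have m4 : i + 1 ≠ i + 2 := fun hh => one (by linear_combination -hh)
          have m5 : i + 1 ≠ i + 2 + 1 := fun hh => two (by linear_combination -hh)
          have m6 : i + 2 ≠ i + 2 + 1 := fun hh => one (by linear_combination -hh)
          simp [m1, m2, m3, m4, m5, m6]
        have := hd.commute
        exact congrArg (fun e : Equiv.Perm (ZMod n) => e x) this
      have l1 := alt ((sw i).trans w) (i + 2)
      have l2 := alt w (i + 2)
      have l3 := alt ((sw (i + 2)).trans w) i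
      rw [hcomm] at l1
      apply square hn i (fun x => (Ψ w).symm (Ψ ((sw i).trans ((sw (i + 2)).trans w)) x))
      · rcases l1 with l1 | l1
        · left
          intro x
          rw [l1, h]
          change (Ψ w).symm ((Ψ w) (sw i (rho i (sw (i + 2) x)))) = _
          rw [Equiv.symm_apply_apply]
        · right
          intro x
          rw [l1, h]
          change (Ψ w).symm ((Ψ w) (sw i (rho i (sw (i + 2) (rho (i + 2) x))))) = _
          rw [Equiv.symm_apply_apply]
      · rcases l2 with l2 | l2 <;> rcases l3 with l3 | l3
        · left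
          intro x
          rw [l3, l2]
          change (Ψ w).symm ((Ψ w) (sw (i + 2) (sw i x))) = _
          rw [Equiv.symm_apply_apply]
        · right; left
          intro x
          rw [l3, l2]
          change (Ψ w).symm ((Ψ w) (sw (i + 2) (sw i (rho i x)))) = _
          rw [Equiv.symm_apply_apply]
        · right; right; left
          intro x
          rw [l3, l2]
          change (Ψ w).symm ((Ψ w) (sw (i + 2) (rho (i + 2) (sw i x)))) = _
          rw [Equiv.symm_apply_apply]
        · right; right; right
          intro x
          rw [l3, l2]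
          change (Ψ w).symm ((Ψ w) (sw (i + 2) (rho (i + 2) (sw i (rho i x))))) = _
          rw [Equiv.symm_apply_apply]
  -- all permutations of the positions
  let H : Equiv.Perm (ZMod n) → Prop := fun g => ∀ w, Ψ (g.trans w) = g.trans (Ψ w)
  have Hmul : ∀ g h, H g → H h → H (g.trans h) := by
    intro g h hg hh w
    rw [Equiv.trans_assoc, hg, hh, Equiv.trans_assoc]
  have Hswap1 : ∀ (m : ℕ) (i : ZMod n), H (Equiv.swap i (i + (m : ZMod n))) := by
    intro m
    induction m with
    | zero =>
      intro i w
      rw [Nat.cast_zero, add_zero, Equiv.swap_self]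
      rfl
    | succ m ih =>
      intro i
      by_cases h1 : i + (m : ZMod n) = i
      · push_cast
        rw [← add_assoc, h1]
        exact fun w => good w i
      · by_cases h2 : i + ((m + 1 : ℕ) : ZMod n) = i
        · intro w
          rw [h2, Equiv.swap_self]
          rfl
        · have e : Equiv.swap i (i + ((m + 1 : ℕ) : ZMod n)) =
              ((sw (i + (m : ZMod n))).trans (Equiv.swap i (i + (m : ZMod n)))).trans
                (sw (i + (m : ZMod n))) := by
            have h3 : i + ((m + 1 : ℕ) : ZMod n) = i + (m : ZMod n) + 1 := by push_cast; ring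
            rw [h3] at h2 ⊢
            have := Equiv.swap_mul_swap_mul_swap (x := i) (y := i + (m : ZMod n))
              (z := i + (m : ZMod n) + 1) (Ne.symm h1) (Ne.symm h2)
            rw [Equiv.swap_comm i, ← this]
            rfl
          rw [e]
          exact Hmul _ _ (Hmul _ _ (fun w => good w _) (ih i)) (fun w => good w _)
  have Hswap : ∀ x y : ZMod n, H (Equiv.swap x y) := by
    intro x y
    have := Hswap1 (y - x).val x
    rw [ZMod.natCast_zmod_val, add_sub_cancel] at this
    exact this
  have Hall : ∀ g, H g := by
    intro g
    induction g using Equiv.Perm.swap_induction_on with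
    | one => intro w; rfl
    | swap_mul f x y _ hf => exact Hmul f (Equiv.swap x y) hf (Hswap x y)
  refine ⟨w₀.symm.trans (Ψ w₀), ?_⟩
  rintro Q ⟨w, k, rfl⟩
  have hg := Hall (w.trans w₀.symm) w₀
  have hgw : (w.trans w₀.symm).trans w₀ = w := by
    apply Equiv.ext
    intro x
    simp
  rw [hgw] at hg
  rw [hΨ, hg]
  ext e
  rw [mem_P, mem_image]
  constructor
  · rintro ⟨l, hl, rfl⟩
    exact ⟨E w l, (E_mem_P hn w k l).2 hl, rfl⟩
  · rintro ⟨e', he', rfl⟩
    obtain ⟨l, hl, rfl⟩ := (mem_P w k e').1 he'
    exact ⟨l, hl, rfl⟩

end Seq

/-! ### The path graph of `K_n` -/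

/-- `E` is the edge set of a spanning path of the complete graph on `Fin n`: for some ordering
`p 0, p 1, …, p (n-1)` of the vertices it consists of the `n - 1` edges `{p i, p (i + 1)}`. -/
def IsSpanningPath (n : ℕ) (E : Finset (Sym2 (Fin n))) : Prop :=
  ∃ p : Equiv.Perm (Fin n), ∀ e, e ∈ E ↔ ∃ i j : Fin n, (j : ℕ) = i + 1 ∧ e = s(p i, p j)

/-- The path graph of `K_n`: its vertices are the spanning paths of `K_n` (as edge sets), and two
different spanning paths are adjacent when they have exactly `n - 2` common edges. -/
def pathGraph (n : ℕ) : SimpleGraph {E : Finset (Sym2 (Fin n)) // IsSpanningPath n E} where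
  Adj P Q := P ≠ Q ∧ (P.1 ∩ Q.1).card = n - 2
  symm := ⟨fun P Q h => ⟨h.1.symm, by rw [inter_comm]; exact h.2⟩⟩
  loopless := ⟨fun P h => h.1 rfl⟩

theorem isSpanningPath_image {n : ℕ} {E : Finset (Sym2 (Fin n))} (h : IsSpanningPath n E)
    (σ : Equiv.Perm (Fin n)) : IsSpanningPath n (E.image (Sym2.map σ)) := by
  obtain ⟨p, hp⟩ := h
  refine ⟨p.trans σ, fun e => ?_⟩
  rw [mem_image]
  constructor
  · rintro ⟨e', he', rfl⟩
    obtain ⟨i, j, hij, rfl⟩ := (hp e').1 he'
    exact ⟨i, j, hij, rfl⟩
  · rintro ⟨i, j, hij, rfl⟩
    exact ⟨s(p i, p j), (hp _).2 ⟨i, j, hij, rfl⟩, rfl⟩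

theorem image_image_map {n : ℕ} (E : Finset (Sym2 (Fin n))) (σ τ : Equiv.Perm (Fin n)) :
    (E.image (Sym2.map τ)).image (Sym2.map σ) = E.image (Sym2.map (σ * τ)) := by
  rw [image_image, ← Sym2.map_comp]
  rfl

theorem image_map_one {n : ℕ} (E : Finset (Sym2 (Fin n))) :
    E.image (Sym2.map (1 : Equiv.Perm (Fin n))) = E := by
  have : (Sym2.map ((1 : Equiv.Perm (Fin n)) : Fin n → Fin n)) = id := by
    rw [Equiv.Perm.coe_one]
    exact Sym2.map_id
  rw [this, image_id]

/-- The automorphism of the path graph induced by a permutation of the vertices of `K_n`. -/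
def relabel (n : ℕ) (σ : Equiv.Perm (Fin n)) : pathGraph n ≃g pathGraph n where
  toFun P := ⟨P.1.image (Sym2.map σ), isSpanningPath_image P.2 σ⟩
  invFun P := ⟨P.1.image (Sym2.map (σ⁻¹ : Equiv.Perm (Fin n))), isSpanningPath_image P.2 σ⁻¹⟩
  left_inv P := by
    apply Subtype.ext
    change (P.1.image (Sym2.map σ)).image (Sym2.map (σ⁻¹ : Equiv.Perm (Fin n))) = P.1
    rw [image_image_map, inv_mul_cancel, image_map_one]
  right_inv P := by
    apply Subtype.ext
    change (P.1.image (Sym2.map (σ⁻¹ : Equiv.Perm (Fin n)))).image (Sym2.map σ) = P.1
    rw [image_image_map, mul_inv_cancel, image_map_one]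
  map_rel_iff' := by
    intro P Q
    have hinj : Function.Injective (Sym2.map σ) := Sym2.map.injective σ.injective
    change (_ ≠ _ ∧ (P.1.image (Sym2.map σ) ∩ Q.1.image (Sym2.map σ)).card = n - 2) ↔
      (P ≠ Q ∧ (P.1 ∩ Q.1).card = n - 2)
    rw [← image_inter _ _ hinj, card_image_of_injective _ hinj]
    apply and_congr_left
    intro _
    apply not_congr
    constructor
    · intro h
      apply Subtype.ext
      exact image_injective hinj (congrArg Subtype.val h)
    · intro h
      change (⟨P.1.image (Sym2.map σ), _⟩ : {E : Finset (Sym2 (Fin n)) // IsSpanningPath n E}) =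
        ⟨Q.1.image (Sym2.map σ), _⟩
      apply Subtype.ext
      change P.1.image (Sym2.map σ) = Q.1.image (Sym2.map σ)
      rw [h]

/-- The natural homomorphism from `S_n` to the automorphism group of the path graph. -/
def relabelHom (n : ℕ) : Equiv.Perm (Fin n) →* (pathGraph n ≃g pathGraph n) where
  toFun := relabel n
  map_one' := by
    apply RelIso.ext
    intro P
    apply Subtype.ext
    exact image_map_one P.1
  map_mul' σ τ := by
    apply RelIso.ext
    intro P
    apply Subtype.ext
    exact (image_image_map P.1 σ τ).symm

/-- Positions as residues. -/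
def pos (n : ℕ) [NeZero n] : ZMod n ≃ Fin n where
  toFun x := ⟨x.val, ZMod.val_lt x⟩
  invFun i := (i.val : ZMod n)
  left_inv x := ZMod.natCast_zmod_val x
  right_inv i := Fin.ext (ZMod.val_natCast_of_lt i.2)

theorem val_add_one {n : ℕ} [NeZero n] (x : ZMod n) (hx : x ≠ -1) :
    (x + 1).val = x.val + 1 := by
  have h1 := ZMod.val_lt x
  have hlt : x.val + 1 < n := by
    rcases Nat.lt_or_ge (x.val + 1) n with h2 | h2
    · exact h2
    · exfalso
      apply hx
      have h3 : x.val + 1 = n := by omega
      have h4 : ((x.val + 1 : ℕ) : ZMod n) = 0 := by rw [h3]; simp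
      push_cast at h4
      rw [ZMod.natCast_zmod_val] at h4
      linear_combination h4
  have : x + 1 = ((x.val + 1 : ℕ) : ZMod n) := by
    push_cast
    rw [ZMod.natCast_zmod_val]
  rw [this, ZMod.val_natCast_of_lt hlt]

theorem ham_iff {n : ℕ} [NeZero n] (Q : Finset (Sym2 (Fin n))) :
    Ham n Q ↔ IsSpanningPath n Q := by
  constructor
  · rintro ⟨w, k, rfl⟩
    refine ⟨((pos n).symm.trans (Equiv.addLeft (k + 1))).trans w, fun e => ?_⟩
    have hp : ∀ i : Fin n, (((pos n).symm.trans (Equiv.addLeft (k + 1))).trans w) i =
        w (k + 1 + (i.val : ZMod n)) := fun i => rfl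
    rw [mem_P]
    constructor
    · rintro ⟨l, hl, rfl⟩
      have hne : l - k - 1 ≠ -1 := fun hh => hl (by linear_combination hh)
      refine ⟨pos n (l - k - 1), pos n (l - k - 1 + 1), val_add_one _ hne, ?_⟩
      rw [hp, hp]
      change s(w l, w (l + 1)) = s(w (k + 1 + (((l - k - 1).val : ℕ) : ZMod n)),
        w (k + 1 + (((l - k - 1 + 1).val : ℕ) : ZMod n)))
      rw [ZMod.natCast_zmod_val, ZMod.natCast_zmod_val,
        show k + 1 + (l - k - 1) = l by ring, show k + 1 + (l - k - 1 + 1) = l + 1 by ring]
    · rintro ⟨i, j, hij, rfl⟩
      refine ⟨k + 1 + (i.val : ZMod n), ?_, ?_⟩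
      · intro hh
        have h1 : ((i.val + 1 : ℕ) : ZMod n) = 0 := by
          push_cast
          linear_combination hh
        have h2 : i.val + 1 < n := by rw [← hij]; exact j.2
        exact natCast_ne (i.val + 1) (by omega) h2 h1
      · rw [hp, hp, hij]
        unfold E
        push_cast
        rw [add_assoc (k + 1)]
  · rintro ⟨p, hp⟩
    refine ⟨(pos n).trans p, -1, ?_⟩
    ext e
    rw [hp, mem_P]
    constructor
    · rintro ⟨i, j, hij, rfl⟩
      have hi : (i.val : ZMod n) ≠ -1 := by
        intro hh
        have h1 : ((i.val + 1 : ℕ) : ZMod n) = 0 := by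
          push_cast
          rw [hh]
          ring
        have h2 : i.val + 1 < n := by rw [← hij]; exact j.2
        exact natCast_ne (i.val + 1) (by omega) h2 h1
      refine ⟨(i.val : ZMod n), hi, ?_⟩
      unfold E
      change s(p (pos n (i.val : ZMod n)), p (pos n ((i.val : ZMod n) + 1))) = _
      have e1 : pos n (i.val : ZMod n) = i := (pos n).apply_symm_apply i
      have e2 : pos n ((i.val : ZMod n) + 1) = j := by
        apply Fin.ext
        change ((i.val : ZMod n) + 1).val = j.val
        rw [val_add_one _ hi, ZMod.val_natCast_of_lt i.2, hij]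
      rw [e1, e2]
    · rintro ⟨l, hl, rfl⟩
      exact ⟨pos n l, pos n (l + 1), val_add_one l hl, rfl⟩

/-- **Main theorem.** For `n ≥ 5` the natural homomorphism from `S_n = Aut(K_n)` to the
automorphism group of the path graph of `K_n` is bijective: every automorphism of the path graph
is induced by exactly one permutation of the vertices of `K_n`. -/
theorem result (n : ℕ) (hn : 5 ≤ n) : Function.Bijective (relabelHom n) := by
  classical
  haveI : NeZero n := ⟨by omega⟩
  constructor
  · intro σ τ h
    have h1 : ∀ w : ZMod n ≃ Fin n, w.trans σ = w.trans τ := by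
      intro w
      apply seq_unique hn
      intro k
      have himg : ∀ ρ : Equiv.Perm (Fin n), P (w.trans ρ) k = (P w k).image (Sym2.map ρ) := by
        intro ρ
        ext e
        rw [mem_P, mem_image]
        constructor
        · rintro ⟨l, hl, rfl⟩
          exact ⟨E w l, (E_mem_P hn w k l).2 hl, rfl⟩
        · rintro ⟨e', he', rfl⟩
          obtain ⟨l, hl, rfl⟩ := (mem_P w k e').1 he'
          exact ⟨l, hl, rfl⟩
      have hPp : IsSpanningPath n (P w k) := (ham_iff _).1 ⟨w, k, rfl⟩
      have h2 := congrArg (fun f : pathGraph n ≃g pathGraph n => (f ⟨P w k, hPp⟩).1) h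
      rw [himg, himg]
      exact h2
    apply Equiv.ext
    intro x
    have h2 := congrArg (fun f : ZMod n ≃ Fin n => f ((pos n).symm x)) (h1 (pos n))
    have h3 : σ (pos n ((pos n).symm x)) = τ (pos n ((pos n).symm x)) := h2
    rwa [Equiv.apply_symm_apply] at h3
  · intro φ
    let Φ : Finset (Sym2 (Fin n)) → Finset (Sym2 (Fin n)) := fun Q =>
      if h : IsSpanningPath n Q then (φ ⟨Q, h⟩).1 else Q
    have hval : ∀ (Q) (h : IsSpanningPath n Q), Φ Q = (φ ⟨Q, h⟩).1 := fun Q h => dif_pos h
    have hΦ : IsAuto n Φ := by
      refine ⟨?_, ?_, ?_, ?_⟩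
      · intro Q hQ
        rw [ham_iff] at hQ ⊢
        rw [hval Q hQ]
        exact (φ ⟨Q, hQ⟩).2
      · intro Q R hQ hR
        rw [ham_iff] at hQ hR
        rw [hval Q hQ, hval R hR]
        have := φ.map_rel_iff (a := ⟨Q, hQ⟩) (b := ⟨R, hR⟩)
        have e : ∀ X Y : {E : Finset (Sym2 (Fin n)) // IsSpanningPath n E},
            (pathGraph n).Adj X Y ↔ Adj n X.1 Y.1 := by
          intro X Y
          constructor
          · intro h
            exact ⟨fun hh => h.1 (Subtype.ext hh), h.2⟩
          · intro h
            exact ⟨fun hh => h.1 (congrArg Subtype.val hh), h.2⟩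
        rw [e, e] at this
        exact this
      · intro Q R hQ hR h
        rw [ham_iff] at hQ hR
        rw [hval Q hQ, hval R hR] at h
        exact congrArg Subtype.val (φ.injective (Subtype.ext h))
      · intro R hR
        rw [ham_iff] at hR
        obtain ⟨⟨Q, hQ⟩, h⟩ := φ.surjective ⟨R, hR⟩
        refine ⟨Q, (ham_iff Q).2 hQ, ?_⟩
        rw [hval Q hQ, h]
    obtain ⟨σ, hσ⟩ := main hn hΦ (pos n)
    refine ⟨σ, ?_⟩
    apply RelIso.ext
    rintro ⟨Q, hQ⟩
    apply Subtype.ext
    have := hσ Q ((ham_iff Q).2 hQ)
    rw [hval Q hQ] at this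
    exact this.symm

end Pool.Agent.Results.MP_89fae5_co.AutIsSn
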